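import Pool.Agent.R811.DML.Dom

/-!
If `2` is not invertible in the ring generated by the coordinates of a point, the field generated
by them carries a nonarchimedean absolute value with `|2| < 1` and algebraic residues.
-/

set_option autoImplicit false

namespace R811.DML

variable {K : Type*} [Field K]

lemma map_aeval_int {L M : Type*} [CommRing L] [CommRing M] (φ : L →+* M) (z : L)
    (f : Polynomial ℤ) : φ (Polynomial.aeval z f) = Polynomial.aeval (φ z) f := by
  rw [Polynomial.aeval_def, Polynomial.aeval_def, Polynomial.hom_eval₂]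
  congr 1
  exact RingHom.ext_int _ _

/-- **The absolute value on the field generated by the coordinates.** -/
theorem exists_abs_closure {n : ℕ} [CharZero K] (α : Fin n → K) (h2 : ¬ IsUnit (2 : S0 α)) :
    ∃ v : AbsoluteValue (Subfield.closure (Set.range α)) ℝ, IsNonarchimedean v ∧ v 2 < 1 ∧
      ∀ i, ∃ f : Polynomial ℤ, f.Monic ∧ v (Polynomial.aeval
        (⟨α i, Subfield.subset_closure ⟨i, rfl⟩⟩ : Subfield.closure (Set.range α)) f) < 1 := by
  obtain ⟨m, hm, h2m, hres⟩ := residues α h2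
  obtain ⟨B, hAB, hnoe, x, hx0, hxB, hmx⟩ := blow α m hm h2m
  let xB : B := ⟨(x : K), hAB x.2⟩
  have hxB' : ¬ IsUnit xB := by
    rintro ⟨u, hu⟩
    refine hxB ((↑u⁻¹ : B) : K) (↑u⁻¹ : B).2 ?_
    have h3 : ((xB : B) : K) * ((↑u⁻¹ : B) : K) = 1 := by
      rw [← hu]
      exact congrArg (fun t : B => (t : K)) u.mul_inv
    exact h3
  obtain ⟨q, hq, hxq, hkrull⟩ := krull xB hxB'
  obtain ⟨V, hBV, hnon, hunit⟩ := dominate B q hq
  let E : Subfield K := Subfield.closure (Set.range α)
  have hSE : S0 α ≤ E.toSubring := by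
    rw [Subring.closure_le]
    exact Subfield.subset_closure
  let w : Valuation E V.ValueGroup := V.valuation.comap E.subtype
  let xE : E := ⟨(x : K), hSE x.2⟩
  have hxE0 : xE ≠ 0 := fun h => hx0 (congrArg (fun t : E => (t : K)) h)
  have hw : ∀ g : E, w g = V.valuation (g : K) := fun g => rfl
  have hwx : w xE < 1 := by
    rw [hw, ← ValuationSubring.mem_nonunits_iff]
    exact hnon xB hxq
  have hB1 : ∀ b ∈ B, V.valuation b ≤ 1 := fun b hb => by
    rw [ValuationSubring.valuation_le_one_iff]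
    exact hBV hb
  have hstrong : ∀ g : E, g ≠ 0 → ∃ N : ℕ, w xE ^ N ≤ w g := by
    intro g hg
    obtain ⟨a, ha, b, hb, hab⟩ := Subfield.mem_closure_iff.1 g.2
    have hgK : (g : K) ≠ 0 := fun h => hg (Subtype.ext h)
    have ha0 : a ≠ 0 := by
      rintro rfl
      rw [zero_div] at hab
      exact hgK hab.symm
    have hb0 : b ≠ 0 := by
      rintro rfl
      rw [div_zero] at hab
      exact hgK hab.symm
    obtain ⟨s, hs, N, c, hsc⟩ := hkrull ⟨a, hAB ha⟩ (fun h => ha0 (congrArg (fun t : B => (t : K)) h))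
    refine ⟨N, ?_⟩
    have h4 : (s : K) * (x : K) ^ N = a * c := by
      have := congrArg (fun t : B => (t : K)) hsc
      exact this
    have h5 := congrArg V.valuation h4
    rw [map_mul, map_pow, map_mul, hunit s hs, one_mul] at h5
    rw [hw, hw, ← hab, map_div₀]
    change V.valuation (x : K) ^ N ≤ _
    rw [h5]
    have h6 : V.valuation a * V.valuation (c : K) ≤ V.valuation a :=
      mul_le_of_le_one_right' (hB1 _ c.2)
    refine h6.trans ?_
    have h7 : V.valuation b ≤ 1 := hB1 _ (hAB hb)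
    have h8 : 0 < V.valuation b := zero_lt_iff.2 ((Valuation.ne_zero_iff _).2 hb0)
    exact (le_div_iff₀ h8).2 (mul_le_of_le_one_right' h7)
  obtain ⟨v, hna, hv⟩ := exists_abs hwx hxE0 hstrong
  have hmv : ∀ y : E, ∀ y' : S0 α, y' ∈ m → (y : K) = (y' : K) → v y < 1 := by
    intro y y' hy' hyy
    refine hv y ?_
    obtain ⟨c, hc, hyc⟩ := hmx y' hy'
    rw [hw, hw, hyy, hyc, map_mul]
    exact mul_le_of_le_one_right' (hB1 _ hc)
  have h22 : ((2 : E) : K) = ((2 : S0 α) : K) := by
    have e1 : ((2 : E) : K) = 2 := map_ofNat E.subtype 2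
    have e2 : ((2 : S0 α) : K) = 2 := map_ofNat (S0 α).subtype 2
    rw [e1, e2]
  refine ⟨v, hna, hmv 2 2 h2m h22, fun i => ?_⟩
  obtain ⟨f, hf, hfm⟩ := hres i
  refine ⟨f, hf, hmv _ _ hfm ?_⟩
  have h10 := map_aeval_int (S0 α).subtype (gen α i) f
  have h11 := map_aeval_int E.subtype ⟨α i, Subfield.subset_closure ⟨i, rfl⟩⟩ f
  have h12 : E.subtype ⟨α i, Subfield.subset_closure ⟨i, rfl⟩⟩ = (S0 α).subtype (gen α i) := rfl
  rw [h12, ← h10] at h11
  exact h11

end R811.DML
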