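import Pool.Agent.R811.DML.Local

/-!
The dynamical Mordell-Lang statement for a point of `F^3` at which a nonarchimedean absolute value
with `|2| < 1` is integral with algebraic residues.
-/

set_option autoImplicit false

namespace R811.DML

open MvPolynomial

/-- A monic integer polynomial which is small at `a` forces `‖a‖ ≤ 1`. -/
lemma norm_le_one_of_small {K : Type*} [NormedField K] [IsUltrametricDist K] (a : K)
    (f : Polynomial ℤ) (hf : f.Monic) (h : ‖Polynomial.aeval a f‖ < 1) : ‖a‖ ≤ 1 := by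
  by_contra hcon
  have ha : 1 < ‖a‖ := not_le.1 hcon
  have hint : ∀ z : ℤ, ‖(z : K)‖ ≤ 1 := fun z => IsUltrametricDist.norm_intCast_le_one K z
  have h1 : Polynomial.aeval a f = a ^ f.natDegree
      + ∑ i ∈ Finset.range f.natDegree, (f.coeff i : K) * a ^ i := by
    rw [Polynomial.aeval_eq_sum_range, Finset.sum_range_succ, hf.coeff_natDegree, one_smul, add_comm]
    congr 1
    refine Finset.sum_congr rfl fun i _ => ?_
    rw [zsmul_eq_mul]
  rcases Nat.eq_zero_or_pos f.natDegree with h0 | hpos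
  · rw [h1, h0] at h
    simp at h
  have h2 : ‖∑ i ∈ Finset.range f.natDegree, (f.coeff i : K) * a ^ i‖
      ≤ ‖a‖ ^ (f.natDegree - 1) := by
    refine IsUltrametricDist.norm_sum_le_of_forall_le_of_nonneg (by positivity) fun i hi => ?_
    have hi' := Finset.mem_range.1 hi
    rw [norm_mul, norm_pow]
    calc ‖(f.coeff i : K)‖ * ‖a‖ ^ i ≤ 1 * ‖a‖ ^ (f.natDegree - 1) := by
          gcongr
          · exact hint _
          · exact ha.le
          · omega
      _ = _ := one_mul _
  have h3 : ‖a‖ ^ (f.natDegree - 1) < ‖a ^ f.natDegree‖ := by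
    rw [norm_pow]
    exact pow_lt_pow_right₀ ha (by omega)
  have h4 : ‖Polynomial.aeval a f‖ = ‖a ^ f.natDegree‖ := by
    rw [h1]
    refine (IsUltrametricDist.norm_add_eq_max_of_norm_ne_norm ?_).trans ?_
    · exact (lt_of_le_of_lt h2 h3).ne'
    · exact max_eq_left ((h2.trans h3.le))
  rw [h4, norm_pow] at h
  exact absurd (one_le_pow₀ ha.le (n := f.natDegree)) (not_le.2 h)

/-- Clearing denominators in a polynomial over a normed field. -/
lemma clear {K : Type*} [NormedField K] [IsUltrametricDist K] (P : MvPolynomial (Fin 3) K) :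
    ∃ (c : O K) (P' : MvPolynomial (Fin 3) (O K)), c ≠ 0 ∧
      ∀ x : Fin 3 → O K, ((eval x P' : O K) : K) = c * eval (fun i => (x i : K)) P := by
  induction P using MvPolynomial.induction_on with
  | C a =>
    by_cases ha : ‖a‖ ≤ 1
    · exact ⟨1, C ⟨a, (mem_O _).2 ha⟩, one_ne_zero, fun x => by simp⟩
    · have ha1 : 1 < ‖a‖ := not_le.1 ha
      have ha0 : a ≠ 0 := norm_pos_iff.1 (lt_trans one_pos ha1)
      refine ⟨⟨a⁻¹, (mem_O _).2 ?_⟩, C 1, ?_, fun x => ?_⟩
      · rw [norm_inv]
        exact inv_le_one_of_one_le₀ ha1.le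
      · intro h
        have := congrArg (fun t : O K => (t : K)) h
        simp at this
        exact ha0 this
      · simp [ha0]
  | add p q hp hq =>
    obtain ⟨c, p', hc, hp'⟩ := hp
    obtain ⟨e, q', he, hq'⟩ := hq
    refine ⟨c * e, C e * p' + C c * q', mul_ne_zero hc he, fun x => ?_⟩
    rw [map_add, map_mul, map_mul, eval_C, eval_C, map_add]
    push_cast
    rw [hp', hq']
    ring
  | mul_X p i hp =>
    obtain ⟨c, p', hc, hp'⟩ := hp
    refine ⟨c, p' * X i, hc, fun x => ?_⟩
    rw [map_mul, map_mul, eval_X, eval_X]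
    push_cast
    rw [hp']
    ring

lemma normed_dml {K : Type*} [NormedField K] [IsUltrametricDist K] [CharZero K]
    (h2 : ‖(2 : K)‖ < 1) (α : Fin 3 → K)
    (h : ∀ i, ∃ f : Polynomial ℤ, f.Monic ∧ ‖Polynomial.aeval (α i) f‖ < 1) :
    ∃ n d : ℕ, 0 < d ∧ ∀ (P : MvPolynomial (Fin 3) K) (r : ℕ),
      {k : ℕ | eval (Phi^[n + r + k * d] α) P = 0}.Infinite →
        ∀ k : ℕ, eval (Phi^[n + r + k * d] α) P = 0 := by
  have hα : ∀ i, ‖α i‖ ≤ 1 := fun i => by
    obtain ⟨f, hf, hs⟩ := h i
    exact norm_le_one_of_small (α i) f hf hs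
  let β : Fin 3 → O K := fun i => ⟨α i, (mem_O _).2 (hα i)⟩
  have hcoe : ∀ (f : Polynomial ℤ) (x : O K),
      ((Polynomial.aeval x f : O K) : K) = Polynomial.aeval (x : K) f := by
    intro f x
    rw [Polynomial.aeval_def, Polynomial.aeval_def, ← ValuationSubring.subtype_apply,
      Polynomial.hom_eval₂]
    congr 1
  have h16 : (16 : O K) ≠ 0 := by
    intro h0
    have := congrArg (fun t : O K => (t : K)) h0
    exact (by norm_num : (16 : K) ≠ 0) this
  obtain ⟨n, d, hd, key⟩ := local_dml h2 β (by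
    intro i
    obtain ⟨f, hf, hs⟩ := h i
    have hpos : (0 : ℝ) < ‖((16 : O K) : K)‖ := norm_pos_iff.2 (fun h0 => h16 (by ext; exact h0))
    obtain ⟨N, hN⟩ := exists_pow_lt_of_lt_one hpos hs
    refine ⟨f ^ N, hf.pow N, ?_⟩
    refine dvd_O _ _ h16 ?_
    rw [hcoe, map_pow, norm_pow]
    exact hN.le)
  refine ⟨n, d, hd, fun P r hinf => ?_⟩
  obtain ⟨c, P', hc, hP'⟩ := clear P
  have hco : ∀ m : ℕ, (fun i => ((Phi^[m] β i : O K) : K)) = Phi^[m] α := fun m =>
    map_Phi_iter (R := O K) (S := K) (O K).subtype m β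
  have hiff : ∀ m : ℕ, eval (Phi^[m] α) P = 0 ↔ eval (Phi^[m] β) P' = 0 := by
    intro m
    have h1 := hP' (Phi^[m] β)
    rw [hco] at h1
    have hcK : (c : K) ≠ 0 := fun h0 => hc (by ext; exact h0)
    constructor
    · intro h0
      rw [h0, mul_zero] at h1
      ext
      exact h1
    · intro h0
      rw [h0] at h1
      have h3 : (0 : K) = c * eval (Phi^[m] α) P := h1
      exact (mul_eq_zero.1 h3.symm).resolve_left hcK
  have hinf' : {k : ℕ | eval (Phi^[n + r + k * d] β) P' = 0}.Infinite := by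
    refine hinf.mono fun k hk => ?_
    exact (hiff _).1 hk
  intro k
  exact (hiff _).2 (key P' r hinf' k)

/-- **Periodicity of the vanishing along the orbit.** -/
theorem abs_dml {F : Type*} [Field F] [CharZero F] (v : AbsoluteValue F ℝ)
    (hna : IsNonarchimedean v) (h2 : v 2 < 1) (α : Fin 3 → F)
    (h : ∀ i, ∃ f : Polynomial ℤ, f.Monic ∧ v (Polynomial.aeval (α i) f) < 1) :
    ∃ n d : ℕ, 0 < d ∧ ∀ (P : MvPolynomial (Fin 3) F) (r : ℕ),
      {k : ℕ | eval (Phi^[n + r + k * d] α) P = 0}.Infinite →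
        ∀ k : ℕ, eval (Phi^[n + r + k * d] α) P = 0 := by
  let _ : NormedField F := v.toNormedField
  have : IsUltrametricDist F := IsUltrametricDist.isUltrametricDist_of_isNonarchimedean_norm hna
  exact normed_dml h2 α h

/-- A set of natural numbers all of whose vanishing conditions are eventually periodic is a finite
union of arithmetic progressions. -/
theorem union_aps {ι : Type*} (Z : ι → Set ℕ) (n d : ℕ) (hd : 0 < d)
    (h : ∀ i r, {k : ℕ | n + r + k * d ∈ Z i}.Infinite → ∀ k : ℕ, n + r + k * d ∈ Z i) :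
    ∃ F : Finset (ℕ × ℕ), {m : ℕ | ∀ i, m ∈ Z i} = {m : ℕ | ∃ p ∈ F, ∃ j : ℕ, m = p.1 + p.2 * j} := by
  classical
  let E : Set ℕ := {m : ℕ | ∀ i, m ∈ Z i}
  have hE : ∀ r, {k : ℕ | n + r + k * d ∈ E}.Finite ∨ ∀ k, n + r + k * d ∈ E := by
    intro r
    by_cases hall : ∀ i, {k : ℕ | n + r + k * d ∈ Z i}.Infinite
    · exact Or.inr fun k i => h i r (hall i) k
    · push Not at hall
      obtain ⟨i, hi⟩ := hall
      exact Or.inl (hi.subset fun k hk => hk i)
  let fin1 : Finset (ℕ × ℕ) := ((Finset.range n).filter (· ∈ E)).image fun m => (m, 0)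
  let piece : ℕ → Finset (ℕ × ℕ) := fun r =>
    if hr : {k : ℕ | n + r + k * d ∈ E}.Finite then hr.toFinset.image fun k => (n + r + k * d, 0)
    else {(n + r, d)}
  refine ⟨fin1 ∪ (Finset.range d).biUnion piece, ?_⟩
  ext m
  constructor
  · intro hm
    have hm' : m ∈ E := hm
    by_cases hmn : m < n
    · refine ⟨(m, 0), ?_, 0, by simp⟩
      refine Finset.mem_union_left _ (Finset.mem_image.2 ⟨m, ?_, rfl⟩)
      exact Finset.mem_filter.2 ⟨Finset.mem_range.2 hmn, hm'⟩
    · obtain ⟨t, rfl⟩ := Nat.exists_eq_add_of_le (not_lt.1 hmn)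
      have hr : t % d < d := Nat.mod_lt _ hd
      have ht : n + t = n + t % d + t / d * d := by
        have := Nat.mod_add_div t d
        rw [mul_comm] at this
        omega
      by_cases hfin : {k : ℕ | n + t % d + k * d ∈ E}.Finite
      · refine ⟨(n + t, 0), ?_, 0, by simp⟩
        refine Finset.mem_union_right _ (Finset.mem_biUnion.2 ⟨t % d, Finset.mem_range.2 hr, ?_⟩)
        simp only [piece, dif_pos hfin]
        refine Finset.mem_image.2 ⟨t / d, ?_, ?_⟩
        · rw [Set.Finite.mem_toFinset]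
          change n + t % d + t / d * d ∈ E
          rw [← ht]
          exact hm'
        · rw [← ht]
      · refine ⟨(n + t % d, d), ?_, t / d, by rw [ht]; ring⟩
        refine Finset.mem_union_right _ (Finset.mem_biUnion.2 ⟨t % d, Finset.mem_range.2 hr, ?_⟩)
        simp only [piece, dif_neg hfin]
        exact Finset.mem_singleton_self _
  · rintro ⟨p, hp, j, rfl⟩
    rcases Finset.mem_union.1 hp with hp | hp
    · obtain ⟨m, hm, rfl⟩ := Finset.mem_image.1 hp
      have := (Finset.mem_filter.1 hm).2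
      change m + 0 * j ∈ E
      rw [zero_mul, add_zero]
      exact this
    · obtain ⟨r, hr, hp⟩ := Finset.mem_biUnion.1 hp
      by_cases hfin : {k : ℕ | n + r + k * d ∈ E}.Finite
      · simp only [piece, dif_pos hfin] at hp
        obtain ⟨k, hk, rfl⟩ := Finset.mem_image.1 hp
        rw [Set.Finite.mem_toFinset] at hk
        have hk' : n + r + k * d ∈ E := hk
        change n + r + k * d + 0 * j ∈ E
        rw [zero_mul, add_zero]
        exact hk'
      · simp only [piece, dif_neg hfin] at hp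
        rw [Finset.mem_singleton.1 hp]
        have := ((hE r).resolve_left hfin) j
        have e : n + r + d * j = n + r + j * d := by ring
        change n + r + d * j ∈ E
        rw [e]
        exact this

end R811.DML
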