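import Pool.Agent.R811.DML.Closure
import Pool.Agent.R811.DML.Global

/-!
Descent of the periodicity statement from polynomials over a field to polynomials over an
extension field, and the general theorem.
-/

set_option autoImplicit false

namespace R811.DML

open MvPolynomial

theorem descent {F L : Type*} [Field F] [Field L] [Algebra F L] (β : Fin 3 → F) (n d : ℕ)
    (h : ∀ (P : MvPolynomial (Fin 3) F) (r : ℕ),
      {k : ℕ | eval (Phi^[n + r + k * d] β) P = 0}.Infinite →
        ∀ k : ℕ, eval (Phi^[n + r + k * d] β) P = 0)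
    (P : MvPolynomial (Fin 3) L) (r : ℕ)
    (hinf : {k : ℕ | eval (Phi^[n + r + k * d] (fun i => algebraMap F L (β i))) P = 0}.Infinite) :
    ∀ k : ℕ, eval (Phi^[n + r + k * d] (fun i => algebraMap F L (β i))) P = 0 := by
  classical
  let b := Module.Basis.ofVectorSpace F L
  let Pi : Module.Basis.ofVectorSpaceIndex F L → MvPolynomial (Fin 3) F := fun i =>
    ∑ m ∈ P.support, monomial m (b.repr (P.coeff m) i)
  have hrepr : ∀ (y : Fin 3 → F) (i : Module.Basis.ofVectorSpaceIndex F L),
      b.repr (eval (fun j => algebraMap F L (y j)) P) i = eval y (Pi i) := by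
    intro y i
    rw [eval_eq', map_sum, Finsupp.finsetSum_apply]
    simp only [Pi, map_sum, eval_monomial]
    refine Finset.sum_congr rfl fun m _ => ?_
    have h1 : P.coeff m * ∏ j, (algebraMap F L (y j)) ^ m j
        = (∏ j, y j ^ m j) • P.coeff m := by
      rw [Algebra.smul_def, map_prod, mul_comm]
      congr 1
      refine Finset.prod_congr rfl fun j _ => ?_
      rw [map_pow]
    rw [h1, map_smul, Finsupp.smul_apply, smul_eq_mul, mul_comm]
    congr 1
    rw [Finsupp.prod_fintype]
    intro j
    exact pow_zero _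
  have hzero : ∀ m : ℕ, eval (Phi^[m] (fun i => algebraMap F L (β i))) P = 0 ↔
      ∀ i, eval (Phi^[m] β) (Pi i) = 0 := by
    intro m
    rw [← map_Phi_iter (R := F) (S := L) (algebraMap F L) m β]
    constructor
    · intro h0 i
      rw [← hrepr, h0, map_zero]
      rfl
    · intro h0
      have h1 : b.repr (eval (fun j => algebraMap F L (Phi^[m] β j)) P) = 0 := by
        ext i
        rw [hrepr]
        exact h0 i
      exact b.repr.map_eq_zero_iff.1 h1
  intro k
  rw [hzero]
  intro i
  refine h (Pi i) r (hinf.mono fun k hk => ?_) k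
  exact (hzero _).1 hk i

/-- **The periodicity statement for all points at which `2` is not invertible.** -/
theorem general (α : Fin 3 → ℂ) (h2 : ¬ IsUnit (2 : Subring.closure (Set.range α))) :
    ∃ n d : ℕ, 0 < d ∧ ∀ (P : MvPolynomial (Fin 3) ℂ) (r : ℕ),
      {k : ℕ | eval (Phi^[n + r + k * d] α) P = 0}.Infinite →
        ∀ k : ℕ, eval (Phi^[n + r + k * d] α) P = 0 := by
  obtain ⟨v, hna, hv2, hres⟩ := exists_abs_closure α h2
  obtain ⟨n, d, hd, h⟩ := abs_dml v hna hv2
    (fun i => (⟨α i, Subfield.subset_closure ⟨i, rfl⟩⟩ : Subfield.closure (Set.range α))) hres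
  exact ⟨n, d, hd, fun P r hinf => descent _ n d h P r hinf⟩

end R811.DML
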