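import Pool.Agent.R811.DML.RankOne

/-!
A finitely generated subring of a field, of characteristic zero, in which `2` is not invertible, is
contained in the unit ball of a nonarchimedean real absolute value of its fraction field, with
`|2| < 1` and algebraic residues of the generators.
-/

set_option autoImplicit false

namespace R811.DML

variable {K : Type*} [Field K]

/-- Krull's principal ideal theorem in the form used here. -/
lemma krull {B : Type*} [CommRing B] [IsDomain B] [IsNoetherianRing B] (x : B) (hx : ¬ IsUnit x) :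
    ∃ q : Ideal B, q.IsPrime ∧ x ∈ q ∧ ∀ g : B, g ≠ 0 → ∃ s : B, s ∉ q ∧ ∃ (N : ℕ) (c : B),
      s * x ^ N = g * c := by
  have hne : Ideal.span {x} ≠ ⊤ := by
    rw [Ne, Ideal.span_singleton_eq_top]
    exact hx
  obtain ⟨M, hM, hle⟩ := Ideal.exists_le_maximal _ hne
  obtain ⟨q, hq, -⟩ := Ideal.exists_minimalPrimes_le hle
  have hqp : q.IsPrime := hq.1.1
  have hxq : x ∈ q := hq.1.2 (Ideal.subset_span rfl)
  have hht : q.height ≤ 1 := Ideal.height_le_one_of_isPrincipal_of_mem_minimalPrimes (Ideal.span {x}) q hq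
  refine ⟨q, hqp, hxq, fun g hg => ?_⟩
  by_contra hcon
  push Not at hcon
  let S : Submonoid B := q.primeCompl ⊔ Submonoid.powers x
  have hdis : Disjoint ((Ideal.span {g} : Ideal B) : Set B) S := by
    rw [Set.disjoint_left]
    intro y hy hyS
    obtain ⟨c, rfl⟩ := Ideal.mem_span_singleton.1 hy
    obtain ⟨s, hs, t, ⟨N, rfl⟩, hst⟩ := Submonoid.mem_sup.1 hyS
    exact hcon s hs N c hst
  obtain ⟨r, hr, hgr, hrS⟩ := Ideal.exists_le_prime_disjoint (Ideal.span {g}) S hdis
  have hrq : r ≤ q := by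
    intro y hy
    by_contra hyq
    exact Set.disjoint_left.1 hrS hy (Submonoid.mem_sup_left (show y ∈ q.primeCompl from hyq))
  have hxr : x ∉ r := fun h => Set.disjoint_left.1 hrS h
    (Submonoid.mem_sup_right (Submonoid.mem_powers x))
  have hlt : r < q := lt_of_le_of_ne hrq (fun h => hxr (h ▸ hxq))
  have h1 := Ideal.height_add_one_le_of_lt_of_isPrime hlt
  have h2 : r.height = 0 := by
    have h3 : r.height + 1 ≤ 0 + 1 := by
      rw [zero_add]
      exact h1.trans hht
    have h4 := (ENat.add_le_add_iff_right (by simp : (1 : ℕ∞) ≠ ⊤)).1 h3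
    exact le_antisymm h4 bot_le
  rw [Ideal.height_eq_zero_iff_eq_bot] at h2
  have : g ∈ r := hgr (Ideal.subset_span rfl)
  rw [h2] at this
  exact hg this

/-- A valuation ring dominating the localization at a prime. -/
lemma dominate (B : Subring K) (q : Ideal B) (hq : q.IsPrime) :
    ∃ V : ValuationSubring K, B ≤ V.toSubring ∧ (∀ b : B, b ∈ q → (b : K) ∈ V.nonunits) ∧
      ∀ b : B, b ∉ q → V.valuation (b : K) = 1 := by
  let R := LocalSubring.ofPrime B q
  obtain ⟨V, hV, hnon⟩ := Ideal.image_subset_nonunits_valuationSubring (A := R.toSubring)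
    (IsLocalRing.maximalIdeal R.toSubring) (IsLocalRing.maximalIdeal.isMaximal _).ne_top
  refine ⟨V, (LocalSubring.le_ofPrime B q).trans hV, ?_, ?_⟩
  · intro b hb
    refine hnon ⟨algebraMap B R.toSubring b, ?_, rfl⟩
    exact (IsLocalization.AtPrime.to_map_mem_maximal_iff R.toSubring q b).2 hb
  · intro b hb
    have hu : IsUnit (algebraMap B R.toSubring b) :=
      IsLocalization.map_units (M := q.primeCompl) R.toSubring ⟨b, hb⟩
    obtain ⟨u, hu⟩ := hu
    have h1 : ((algebraMap B R.toSubring b : R.toSubring) : K) = b := rfl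
    have h2 : (b : K) * (((u⁻¹ : (R.toSubring)ˣ) : R.toSubring) : K) = 1 := by
      rw [← h1, ← hu]
      exact congrArg (fun t : R.toSubring => (t : K)) u.mul_inv
    have h3 : V.valuation (b : K) ≤ 1 := by
      rw [ValuationSubring.valuation_le_one_iff]
      exact hV ((LocalSubring.le_ofPrime B q) b.2)
    have h4 : V.valuation (((u⁻¹ : (R.toSubring)ˣ) : R.toSubring) : K) ≤ 1 := by
      rw [ValuationSubring.valuation_le_one_iff]
      exact hV ((u⁻¹ : (R.toSubring)ˣ) : R.toSubring).2
    have h5 := congrArg V.valuation h2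
    rw [map_mul, map_one] at h5
    refine le_antisymm h3 ?_
    rw [← h5]
    exact mul_le_of_le_one_right' h4

lemma jacobson_int : IsJacobsonRing ℤ := by
  rw [isJacobsonRing_iff_prime_eq]
  intro P hP
  by_cases hbot : P = ⊥
  · rw [hbot]
    refine le_antisymm ?_ bot_le
    intro n hn
    rw [Ideal.mem_jacobson_bot] at hn
    have h1 := hn n
    rw [Int.isUnit_iff] at h1
    rw [Ideal.mem_bot]
    by_contra hne
    have h3 : 0 < n * n := mul_self_pos.2 hne
    rcases h1 with h1 | h1 <;> omega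
  · have hmax : P.IsMaximal := IsPrime.to_maximal_ideal hbot
    exact Ideal.jacobson_eq_self_of_isMaximal
    
/-- The subring generated by the coordinates. -/
abbrev S0 {n : ℕ} (α : Fin n → K) : Subring K := Subring.closure (Set.range α)

/-- The generators as elements of the subring. -/
def gen {n : ℕ} (α : Fin n → K) (i : Fin n) : S0 α := ⟨α i, Subring.subset_closure ⟨i, rfl⟩⟩

lemma residues {n : ℕ} (α : Fin n → K) (h2 : ¬ IsUnit (2 : S0 α)) :
    ∃ m : Ideal (S0 α), m ≠ ⊤ ∧ (2 : S0 α) ∈ m ∧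
      ∀ i, ∃ f : Polynomial ℤ, f.Monic ∧ Polynomial.aeval (gen α i) f ∈ m := by
  have hne : Ideal.span {(2 : S0 α)} ≠ ⊤ := by
    rw [Ne, Ideal.span_singleton_eq_top]
    exact h2
  obtain ⟨m, hm, hle⟩ := Ideal.exists_le_maximal _ hne
  refine ⟨m, hm.ne_top, hle (Ideal.subset_span rfl), ?_⟩
  let ψ : MvPolynomial (Fin n) ℤ →ₐ[ℤ] S0 α := MvPolynomial.aeval (gen α)
  have hψ : Function.Surjective ψ := by
    intro y
    have h1 : S0 α ≤ ((S0 α).subtype.comp ψ.toRingHom).range := by
      rw [Subring.closure_le]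
      rintro _ ⟨i, rfl⟩
      refine ⟨MvPolynomial.X i, ?_⟩
      change ((ψ (MvPolynomial.X i) : S0 α) : K) = α i
      rw [MvPolynomial.aeval_X]
      rfl
    obtain ⟨p, hp⟩ := h1 y.2
    exact ⟨p, Subtype.ext hp⟩
  let Q := S0 α ⧸ m
  have hft : Algebra.FiniteType ℤ Q :=
    Algebra.FiniteType.of_surjective ((Ideal.Quotient.mkₐ ℤ m).comp ψ)
      ((Ideal.Quotient.mkₐ_surjective ℤ m).comp hψ)
  let _ : Field Q := Ideal.Quotient.field m
  have := jacobson_int
  have hfin : Module.Finite ℤ Q := finite_of_finite_type_of_isJacobsonRing ℤ Q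
  intro i
  obtain ⟨f, hf, h0⟩ := IsIntegral.of_finite ℤ (Ideal.Quotient.mk m (gen α i))
  refine ⟨f, hf, ?_⟩
  rw [← Ideal.Quotient.eq_zero_iff_mem, Polynomial.aeval_def, Polynomial.hom_eval₂]
  have h0' : algebraMap ℤ (S0 α ⧸ m) = (Ideal.Quotient.mk m).comp (algebraMap ℤ (S0 α)) :=
    RingHom.ext_int _ _
  rw [← h0']
  exact h0

/-- The blow up step. -/
lemma blow {n : ℕ} [CharZero K] (α : Fin n → K) (m : Ideal (S0 α)) (hm : m ≠ ⊤)
    (h2 : (2 : S0 α) ∈ m) :
    ∃ B : Subring K, S0 α ≤ B ∧ IsNoetherianRing B ∧ ∃ x : S0 α, (x : K) ≠ 0 ∧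
      (∀ b ∈ B, (x : K) * b ≠ 1) ∧ ∀ y ∈ m, ∃ c ∈ B, ((y : S0 α) : K) = x * c := by
  classical
  have hnoe : IsNoetherianRing (S0 α) := is_noetherian_subring_closure _ (Set.finite_range α)
  obtain ⟨T, hT⟩ := (isNoetherianRing_iff_ideal_fg _).1 hnoe m
  obtain ⟨V, hV, hnon⟩ := Ideal.image_subset_nonunits_valuationSubring m hm
  have h20 : (2 : S0 α) ≠ 0 := by
    intro h
    have := congrArg (fun t : S0 α => (t : K)) h
    exact two_ne_zero this
  have hTne : T.Nonempty := by
    rw [Finset.nonempty_iff_ne_empty]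
    rintro rfl
    rw [Finset.coe_empty, Ideal.span_empty] at hT
    rw [← hT] at h2
    exact h20 h2
  obtain ⟨x, hxT, hmax⟩ := Finset.exists_max_image T (fun t => V.valuation (t : K)) hTne
  have hx0 : (x : K) ≠ 0 := by
    intro hx
    apply h20
    have h3 : Ideal.span (T : Set (S0 α)) ≤ ⊥ := by
      rw [Ideal.span_le]
      intro t ht
      have h4 := hmax t ht
      rw [hx, map_zero, le_zero_iff, Valuation.zero_iff] at h4
      exact Subtype.ext h4
    rw [hT] at h3
    exact h3 h2
  have hxm : x ∈ m := by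
    rw [← hT]
    exact Ideal.subset_span hxT
  let G : Set K := Set.range α ∪ (fun t : S0 α => (t : K) / x) '' T
  let B : Subring K := Subring.closure G
  have hAB : S0 α ≤ B := Subring.closure_mono Set.subset_union_left
  have hBV : B ≤ V.toSubring := by
    rw [Subring.closure_le]
    rintro y (⟨i, rfl⟩ | ⟨t, ht, rfl⟩)
    · exact hV (Subring.subset_closure ⟨i, rfl⟩)
    · change (t : K) / x ∈ V
      rw [← ValuationSubring.valuation_le_one_iff, map_div₀]
      exact div_le_one_of_le₀ (hmax t ht) zero_le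
  refine ⟨B, hAB, ?_, x, hx0, ?_, ?_⟩
  · exact is_noetherian_subring_closure _ ((Set.finite_range α).union (T.finite_toSet.image _))
  · intro b hb hxb
    have h5 : V.valuation (x : K) < 1 := by
      rw [← ValuationSubring.mem_nonunits_iff]
      exact hnon ⟨x, hxm, rfl⟩
    have h6 : V.valuation b ≤ 1 := by
      rw [ValuationSubring.valuation_le_one_iff]
      exact hBV hb
    have h7 := congrArg V.valuation hxb
    rw [map_mul, map_one] at h7
    have h8 : V.valuation (x : K) * V.valuation b < 1 :=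
      lt_of_le_of_lt (mul_le_of_le_one_right' h6) h5
    exact h8.ne h7
  · intro y hy
    rw [← hT] at hy
    refine Submodule.span_induction (p := fun y _ => ∃ c ∈ B, ((y : S0 α) : K) = x * c)
      ?_ ?_ ?_ ?_ hy
    · intro t ht
      refine ⟨(t : K) / x, Subring.subset_closure (Or.inr ⟨t, ht, rfl⟩), ?_⟩
      field_simp
    · exact ⟨0, B.zero_mem, by simp⟩
    · rintro y z _ _ ⟨c, hc, hy⟩ ⟨e, he, hz⟩
      exact ⟨c + e, B.add_mem hc he, by push_cast; rw [hy, hz]; ring⟩
    · rintro a y _ ⟨c, hc, hy⟩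
      refine ⟨a * c, B.mul_mem (hAB a.2) hc, ?_⟩
      rw [smul_eq_mul]
      push_cast
      rw [hy]
      ring

end R811.DML
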