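import Mathlib

/-!
`ℂ` is isomorphic to the algebraic closure of `ℚ_2`, and an isomorphism can be chosen so that the
members of a given algebraically independent family land in the closed unit ball.
-/

set_option autoImplicit false

namespace R811.DML

open Cardinal

instance : Fact (Nat.Prime 2) := ⟨Nat.prime_two⟩

lemma mk_padic_le : #(ℚ_[2]) ≤ 𝔠 := by
  have h1 : #(ℚ_[2]) ≤ #(CauSeq ℚ (padicNorm 2)) :=
    Cardinal.mk_le_of_surjective (f := fun s => (Quotient.mk _ s : CauSeq.Completion.Cauchy (padicNorm 2)))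
      Quotient.mk_surjective
  have h2 : #(CauSeq ℚ (padicNorm 2)) ≤ #(ℕ → ℚ) := Cardinal.mk_subtype_le _
  have h3 : #(ℕ → ℚ) = 𝔠 := by
    simp
  exact h1.trans (h2.trans h3.le)

lemma mk_algCl : #(PadicAlgCl 2) = 𝔠 := by
  apply le_antisymm
  · have h := Algebra.IsAlgebraic.cardinalMk_le_max ℚ_[2] (PadicAlgCl 2)
    refine h.trans (max_le mk_padic_le ?_)
    exact Cardinal.aleph0_le_continuum
  · have h := continuum_le_cardinal_of_nontriviallyNormedField ℚ_[2]
    exact h.trans (Cardinal.mk_le_of_injective (algebraMap ℚ_[2] (PadicAlgCl 2)).injective)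

theorem exists_iso : Nonempty (ℂ ≃+* PadicAlgCl 2) := by
  apply IsAlgClosed.ringEquiv_of_equiv_of_charZero
  · rw [Cardinal.mk_complex]
    exact Cardinal.aleph0_lt_continuum
  · rw [← Cardinal.eq, mk_algCl, Cardinal.mk_complex]

/-- Rescaling a transcendence basis by non-zero scalars. -/
lemma scale_basis {A : Type*} [Field A] [Algebra ℚ A] {ι : Type*} (x : ι → A)
    (hx : IsTranscendenceBasis ℚ x) (c : ι → ℚ) (hc : ∀ i, c i ≠ 0) :
    IsTranscendenceBasis ℚ (fun i => algebraMap ℚ A (c i) * x i) := by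
  have hind : AlgebraicIndependent ℚ (fun i => algebraMap ℚ A (c i) * x i) := by
    have h1 : (MvPolynomial.aeval (fun i => algebraMap ℚ A (c i) * x i) : MvPolynomial ι ℚ →ₐ[ℚ] A)
        = (MvPolynomial.aeval x).comp (MvPolynomial.aeval fun i => MvPolynomial.C (c i) * MvPolynomial.X i) := by
      apply MvPolynomial.algHom_ext
      intro i
      simp
    have h2 : (MvPolynomial.aeval (fun i => MvPolynomial.C (c i)⁻¹ * MvPolynomial.X i) :
        MvPolynomial ι ℚ →ₐ[ℚ] MvPolynomial ι ℚ).comp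
        (MvPolynomial.aeval fun i => MvPolynomial.C (c i) * MvPolynomial.X i) = AlgHom.id ℚ _ := by
      apply MvPolynomial.algHom_ext
      intro i
      simp only [AlgHom.comp_apply, MvPolynomial.aeval_X, map_mul, MvPolynomial.algHom_C,
        MvPolynomial.algebraMap_eq, AlgHom.id_apply]
      rw [← mul_assoc, ← map_mul, mul_inv_cancel₀ (hc i), map_one, one_mul]
    unfold AlgebraicIndependent
    rw [h1, AlgHom.coe_comp]
    refine Function.Injective.comp hx.1 ?_
    exact Function.LeftInverse.injective (g := (MvPolynomial.aeval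
      (fun i => MvPolynomial.C (c i)⁻¹ * MvPolynomial.X i) :
        MvPolynomial ι ℚ →ₐ[ℚ] MvPolynomial ι ℚ)) fun p => by
      have := DFunLike.congr_fun h2 p
      exact this
  rw [hind.isTranscendenceBasis_iff_isAlgebraic]
  have hadj : Algebra.adjoin ℚ (Set.range fun i => algebraMap ℚ A (c i) * x i)
      = Algebra.adjoin ℚ (Set.range x) := by
    apply le_antisymm
    · refine Algebra.adjoin_le ?_
      rintro _ ⟨i, rfl⟩
      exact mul_mem (Subalgebra.algebraMap_mem _ _) (Algebra.subset_adjoin ⟨i, rfl⟩)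
    · refine Algebra.adjoin_le ?_
      rintro _ ⟨i, rfl⟩
      have h := mul_mem (Subalgebra.algebraMap_mem (Algebra.adjoin ℚ
        (Set.range fun i => algebraMap ℚ A (c i) * x i)) (c i)⁻¹)
        (Algebra.subset_adjoin (R := ℚ) (⟨i, rfl⟩ : (algebraMap ℚ A (c i) * x i) ∈
          Set.range fun i => algebraMap ℚ A (c i) * x i))
      rw [← mul_assoc, ← map_mul, inv_mul_cancel₀ (hc i), map_one, one_mul] at h
      exact h
  rw [hadj]
  exact hx.1.isTranscendenceBasis_iff_isAlgebraic.1 hx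

/-- An isomorphism `ℂ ≅ PadicAlgCl 2` moving a given algebraically independent family into the
closed unit ball. -/
theorem exists_iso_unit {n : ℕ} (α : Fin n → ℂ) (hα : AlgebraicIndependent ℚ α) :
    ∃ Θ : ℂ ≃+* PadicAlgCl 2, ∀ i, ‖Θ (α i)‖ ≤ 1 := by
  obtain ⟨ι⟩ := exists_iso
  have h0 : AlgebraicIndepOn ℚ id (Set.range α) := hα.to_subtype_range
  obtain ⟨t, hst, ht⟩ := exists_isTranscendenceBasis_superset h0
  let ιA : ℂ ≃ₐ[ℚ] PadicAlgCl 2 := AlgEquiv.ofRingEquiv (f := ι) (fun r => by simp)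
  have hx : IsTranscendenceBasis ℚ (fun b : t => ι (b : ℂ)) := ιA.isTranscendenceBasis ht
  have h2 : ‖(2 : PadicAlgCl 2)‖ < 1 := by
    have h := PadicAlgCl.valuation_p 2
    have h3 : ‖((2 : ℕ) : PadicAlgCl 2)‖ = 1 / 2 := by
      rw [← PadicAlgCl.valuation_coe, h]
      simp
    have h4 : ((2 : ℕ) : PadicAlgCl 2) = 2 := by norm_num
    rw [h4] at h3
    rw [h3]
    norm_num
  have hk : ∀ b : t, ∃ k : ℕ, ‖(2 : PadicAlgCl 2)‖ ^ k * ‖ι (b : ℂ)‖ ≤ 1 := by
    intro b
    have hpos : 0 < 1 / (‖ι (b : ℂ)‖ + 1) := by positivity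
    obtain ⟨k, hk⟩ := exists_pow_lt_of_lt_one hpos h2
    refine ⟨k, ?_⟩
    have h5 : 0 ≤ ‖ι (b : ℂ)‖ := norm_nonneg _
    calc ‖(2 : PadicAlgCl 2)‖ ^ k * ‖ι (b : ℂ)‖ ≤ 1 / (‖ι (b : ℂ)‖ + 1) * ‖ι (b : ℂ)‖ := by
          gcongr
      _ ≤ 1 := by
          rw [div_mul_eq_mul_div, one_mul, div_le_one (by positivity)]
          linarith
  choose k hk using hk
  have hw := scale_basis _ hx (fun b => 2 ^ k b) (fun b => by positivity)
  have : IsAlgClosure (Algebra.adjoin ℚ (Set.range ((↑) : t → ℂ))) ℂ :=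
    IsAlgClosed.isAlgClosure_of_transcendence_basis _ ht
  have : IsAlgClosure (Algebra.adjoin ℚ (Set.range
      (fun b : t => algebraMap ℚ (PadicAlgCl 2) (2 ^ k b) * ι (b : ℂ)))) (PadicAlgCl 2) :=
    IsAlgClosed.isAlgClosure_of_transcendence_basis _ hw
  let e : Algebra.adjoin ℚ (Set.range ((↑) : t → ℂ)) ≃+* Algebra.adjoin ℚ (Set.range
      (fun b : t => algebraMap ℚ (PadicAlgCl 2) (2 ^ k b) * ι (b : ℂ))) :=
    (ht.1.aevalEquiv.symm.trans hw.1.aevalEquiv).toRingEquiv
  refine ⟨IsAlgClosure.equivOfEquiv ℂ (PadicAlgCl 2) e, fun i => ?_⟩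
  let b : t := ⟨α i, hst ⟨i, rfl⟩⟩
  have hb : α i = algebraMap (Algebra.adjoin ℚ (Set.range ((↑) : t → ℂ))) ℂ
      (ht.1.aevalEquiv (MvPolynomial.X b)) := by
    rw [AlgebraicIndependent.algebraMap_aevalEquiv, MvPolynomial.aeval_X]
  rw [hb, IsAlgClosure.equivOfEquiv_algebraMap]
  have he : e (ht.1.aevalEquiv (MvPolynomial.X b)) = hw.1.aevalEquiv (MvPolynomial.X b) := by
    simp [e]
  rw [he, AlgebraicIndependent.algebraMap_aevalEquiv, MvPolynomial.aeval_X, norm_mul]
  have h6 : ‖algebraMap ℚ (PadicAlgCl 2) (2 ^ k b)‖ = ‖(2 : PadicAlgCl 2)‖ ^ k b := by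
    rw [map_pow, norm_pow]
    simp
  rw [h6]
  exact hk b

end R811.DML
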