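import Pool.Agent.R811.DML.Thick

/-!
The local statement: for a point of the closed unit polydisc whose coordinates are integral modulo
`16`, every polynomial vanishes along the orbit periodically or finitely often.
-/

set_option autoImplicit false

namespace R811.DML

open Finset MvPolynomial

section gen

variable {R A : Type*} [CommRing R] [CommRing A] [Algebra R A]

lemma Phi_iter_comm (θ : A →ₐ[R] A) (m k : ℕ) (v : Fin 3 → A) :
    Phi^[m] (fun i => θ^[k] (v i)) = fun i => θ^[k] (Phi^[m] v i) := by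
  induction k generalizing v with
  | zero => rfl
  | succ k ih =>
    simp only [Function.iterate_succ_apply]
    rw [ih (fun i => θ (v i))]
    funext i
    congr 1
    exact (congrFun (map_Phi_iter (R := A) (S := A) θ.toRingHom m v) i).symm

lemma aeval_iter_comm (θ : A →ₐ[R] A) (k : ℕ) (w : Fin 3 → A) (P : MvPolynomial (Fin 3) R) :
    θ^[k] (aeval w P) = aeval (fun i => θ^[k] (w i)) P := by
  induction k generalizing w with
  | zero => rfl
  | succ k ih =>
    simp only [Function.iterate_succ_apply]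
    rw [← ih (fun i => θ (w i)), MvPolynomial.comp_aeval_apply]

lemma Phi_iter_mul (θ : A →ₐ[R] A) (d k : ℕ) (V : Fin 3 → A)
    (hV : Phi^[d] V = fun i => θ (V i)) : Phi^[k * d] V = fun i => θ^[k] (V i) := by
  induction k with
  | zero => simp
  | succ k ih =>
    have e : (k + 1) * d = d + k * d := by ring
    rw [e, Function.iterate_add_apply, ih, Phi_iter_comm, hV]
    funext i
    rw [← Function.iterate_succ_apply]

lemma orbit_fun (θ : A →ₐ[R] A) (d k r : ℕ) (V : Fin 3 → A)
    (hV : Phi^[d] V = fun i => θ (V i)) (P : MvPolynomial (Fin 3) R) :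
    θ^[k] (aeval (Phi^[r] V) P) = aeval (Phi^[r + k * d] V) P := by
  rw [aeval_iter_comm, Function.iterate_add_apply, Phi_iter_mul θ d k V hV, Phi_iter_comm]

lemma ev_orbit (ev : A →ₐ[R] R) (m : ℕ) (V : Fin 3 → A) (P : MvPolynomial (Fin 3) R) :
    ev (aeval (Phi^[m] V) P) = eval (Phi^[m] (fun i => ev (V i))) P := by
  rw [MvPolynomial.comp_aeval_apply]
  have h := map_Phi_iter (R := A) (S := R) ev.toRingHom m V
  have h' : (fun i => ev (Phi^[m] V i)) = Phi^[m] (fun i => ev (V i)) := h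
  rw [h']
  rfl


/-- The orbit of a thickened periodic point is a Mahler series. -/
lemma mahler (α : Fin 3 → R) (n d : ℕ) (H : Fin 3 → MvPolynomial (Fin 3) R)
    (hH : Phi^[d] (fun i => C (Phi^[n] α i) + 4 * X i : Fin 3 → MvPolynomial (Fin 3) R)
        = (fun i => C (Phi^[n] α i) + 4 * (X i + 4 * H i)))
    (P : MvPolynomial (Fin 3) R) (r : ℕ) :
    ∃ E : ℕ → R, ∀ k : ℕ, eval (Phi^[n + r + k * d] α) P
      = ∑ m ∈ range (k + 1), (k.choose m : R) * 4 ^ m * E m := by
  obtain ⟨θ, hθX⟩ : ∃ θ : MvPolynomial (Fin 3) R →ₐ[R] MvPolynomial (Fin 3) R,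
      ∀ i, θ (X i) = X i + 4 * H i := ⟨aeval (fun i => X i + 4 * H i), fun i => by rw [aeval_X]⟩
  have hθ : ∀ F, ∃ F', θ F = F + 4 * F' := by
    intro F
    induction F using MvPolynomial.induction_on with
    | C a => exact ⟨0, by rw [MvPolynomial.algHom_C, mul_zero, add_zero]; rfl⟩
    | add p q hp hq =>
      obtain ⟨p', hp'⟩ := hp
      obtain ⟨q', hq'⟩ := hq
      exact ⟨p' + q', by rw [map_add, hp', hq']; ring⟩
    | mul_X p i hp =>
      obtain ⟨p', hp'⟩ := hp
      refine ⟨p' * X i + p * H i + 4 * p' * H i, ?_⟩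
      rw [map_mul, hp', hθX]
      ring
  obtain ⟨V, hVdef⟩ : ∃ V : Fin 3 → MvPolynomial (Fin 3) R,
      V = fun i => C (Phi^[n] α i) + 4 * X i := ⟨_, rfl⟩
  have hV : Phi^[d] V = fun i => θ (V i) := by
    rw [hVdef, hH]
    funext i
    rw [map_add, map_mul, MvPolynomial.algHom_C, hθX, map_ofNat]
    rfl
  obtain ⟨ev, hev0⟩ : ∃ ev : MvPolynomial (Fin 3) R →ₐ[R] R, ∀ i, ev (X i) = 0 :=
    ⟨aeval (fun _ => 0), fun i => by rw [aeval_X]⟩
  have hevV : (fun i => ev (V i)) = Phi^[n] α := by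
    rw [hVdef]
    funext i
    rw [map_add, map_mul, hev0, mul_zero, add_zero, MvPolynomial.algHom_C]
    rfl
  have hev : ∀ k : ℕ, ev (θ^[k] (aeval (Phi^[r] V) P)) = eval (Phi^[n + r + k * d] α) P := by
    intro k
    rw [orbit_fun θ d k r V hV P, ev_orbit, hevV, ← Function.iterate_add_apply]
    have h15 : r + k * d + n = n + r + k * d := by ring
    rw [h15]
  obtain ⟨E, hE0, hE⟩ := expand θ hθ (aeval (Phi^[r] V) P)
  have hsum : ∀ k : ℕ, eval (Phi^[n + r + k * d] α) P
      = ∑ m ∈ range (k + 1), (k.choose m : R) * 4 ^ m * ev (E m) := by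
    intro k
    have h17 := hE k 0
    rw [hE0] at h17
    rw [← hev, h17, map_sum]
    refine Finset.sum_congr rfl fun m _ => ?_
    rw [map_mul, map_mul, map_pow, map_natCast, map_ofNat, zero_add]
  exact ⟨_, hsum⟩

end gen

variable {K : Type*} [NormedField K] [IsUltrametricDist K]

/-- **The local dynamical Mordell-Lang statement.** -/
theorem local_dml [CharZero K] (h2 : ‖(2 : K)‖ < 1) (α : Fin 3 → O K)
    (hint : ∀ i, ∃ f : Polynomial ℤ, f.Monic ∧ ∃ t : O K, Polynomial.aeval (α i) f = 16 * t) :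
    ∃ n d : ℕ, 0 < d ∧ ∀ (P : MvPolynomial (Fin 3) (O K)) (r : ℕ),
      {k : ℕ | eval (Phi^[n + r + k * d] α) P = 0}.Infinite →
        ∀ k : ℕ, eval (Phi^[n + r + k * d] α) P = 0 := by
  obtain ⟨n, d, hd, H, hH⟩ := thick α hint
  refine ⟨n, d, hd, fun P r hinf => ?_⟩
  obtain ⟨E, hE⟩ := mahler α n d H hH P r
  exact strass h2 E (fun k => eval (Phi^[n + r + k * d] α) P) hE hinf

end R811.DML
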