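import Pool.Agent.R811.DML.Global
import Pool.Agent.R811.DML.Iso

/-!
Residues in the algebraic closure of `ℚ_2` are algebraic; the dynamical Mordell-Lang statement for
the points which are `2`-adically integral under some field homomorphism to it.
-/

set_option autoImplicit false

namespace R811.DML

open MvPolynomial

lemma norm_two_algCl : ‖(2 : PadicAlgCl 2)‖ < 1 := by
  have h := PadicAlgCl.valuation_p 2
  have h3 : ‖((2 : ℕ) : PadicAlgCl 2)‖ = 1 / 2 := by
    rw [← PadicAlgCl.valuation_coe, h]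
    simp
  have h4 : ((2 : ℕ) : PadicAlgCl 2) = 2 := by norm_num
  rw [h4] at h3
  rw [h3]
  norm_num

/-- The residue of an integral element of the algebraic closure of `ℚ_2` is algebraic. -/
lemma residue_alg (a : PadicAlgCl 2) (ha : ‖a‖ ≤ 1) :
    ∃ f : Polynomial ℤ, f.Monic ∧ ‖Polynomial.aeval a f‖ < 1 := by
  have hint : IsIntegral ℚ_[2] a := Algebra.IsIntegral.isIntegral a
  set p := minpoly ℚ_[2] a with hp
  have hmon : p.Monic := minpoly.monic hint
  have hco : ∀ i, ‖p.coeff i‖ ≤ 1 := by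
    rw [← spectralValue_le_one_iff hmon]
    exact ha
  have hz : ∀ i, ∃ z : ℕ, ‖p.coeff i - (z : ℚ_[2])‖ < 1 := by
    intro i
    obtain ⟨t, ht⟩ : ∃ t : ℤ_[2], (t : ℚ_[2]) = p.coeff i := ⟨⟨p.coeff i, hco i⟩, rfl⟩
    obtain ⟨z, _, hz⟩ := PadicInt.exists_mem_range (p := 2) t
    refine ⟨z, ?_⟩
    rw [IsLocalRing.mem_maximalIdeal, PadicInt.mem_nonunits, PadicInt.norm_def] at hz
    rw [← ht]
    simpa using hz
  choose z hz using hz
  let q : Polynomial ℤ := ∑ i ∈ Finset.range p.natDegree, Polynomial.C (z i : ℤ) * Polynomial.X ^ i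
  have hq : q.degree < (p.natDegree : WithBot ℕ) := by
    rw [← Polynomial.mem_degreeLT]
    refine Submodule.sum_mem _ fun i hi => ?_
    rw [Polynomial.mem_degreeLT]
    refine (Polynomial.degree_C_mul_X_pow_le _ _).trans_lt ?_
    exact_mod_cast Finset.mem_range.1 hi
  refine ⟨Polynomial.X ^ p.natDegree + q, Polynomial.monic_X_pow_add hq, ?_⟩
  have h0 : Polynomial.aeval a p = 0 := minpoly.aeval _ _
  have h1 : Polynomial.aeval a p = a ^ p.natDegree
      + ∑ i ∈ Finset.range p.natDegree, algebraMap ℚ_[2] (PadicAlgCl 2) (p.coeff i) * a ^ i := by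
    rw [Polynomial.aeval_eq_sum_range, Finset.sum_range_succ, hmon.coeff_natDegree, one_smul, add_comm]
    congr 1
    refine Finset.sum_congr rfl fun i _ => ?_
    rw [Algebra.smul_def]
  have h2 : Polynomial.aeval a (Polynomial.X ^ p.natDegree + q : Polynomial ℤ)
      = ∑ i ∈ Finset.range p.natDegree,
        -(algebraMap ℚ_[2] (PadicAlgCl 2) (p.coeff i - (z i : ℚ_[2])) * a ^ i) := by
    rw [map_add, map_pow, Polynomial.aeval_X, map_sum]
    have h3 : a ^ p.natDegree
        = - ∑ i ∈ Finset.range p.natDegree, algebraMap ℚ_[2] (PadicAlgCl 2) (p.coeff i) * a ^ i := by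
      rw [h1] at h0
      exact eq_neg_of_add_eq_zero_left h0
    rw [h3, ← Finset.sum_neg_distrib, ← Finset.sum_add_distrib]
    refine Finset.sum_congr rfl fun i _ => ?_
    rw [map_mul, map_pow, Polynomial.aeval_X, Polynomial.aeval_C, map_sub, map_natCast]
    simp
    ring
  rw [h2]
  rcases Nat.eq_zero_or_pos p.natDegree with hz0 | hpos
  · rw [hz0]
    simp
  · obtain ⟨i, hi, hle⟩ := IsUltrametricDist.exists_norm_finsetSum_le (Finset.range p.natDegree)
      (fun i => -(algebraMap ℚ_[2] (PadicAlgCl 2) (p.coeff i - (z i : ℚ_[2])) * a ^ i))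
    refine hle.trans_lt ?_
    rw [norm_neg, norm_mul, norm_pow]
    have h5 : ‖algebraMap ℚ_[2] (PadicAlgCl 2) (p.coeff i - (z i : ℚ_[2]))‖
        = ‖p.coeff i - (z i : ℚ_[2])‖ := PadicAlgCl.norm_extends 2 _
    rw [h5]
    calc ‖p.coeff i - (z i : ℚ_[2])‖ * ‖a‖ ^ i ≤ ‖p.coeff i - (z i : ℚ_[2])‖ * 1 := by
          gcongr
          exact pow_le_one₀ (norm_nonneg _) ha
      _ < 1 := by
          rw [mul_one]
          exact hz i

/-- The pulled back absolute value. -/
noncomputable def pull {F : Type*} [Field F] (Θ : F →+* PadicAlgCl 2) : AbsoluteValue F ℝ where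
  toFun x := ‖Θ x‖
  map_mul' x y := by rw [map_mul, norm_mul]
  nonneg' x := norm_nonneg _
  eq_zero' x := by simp
  add_le' x y := by
    rw [map_add]
    exact norm_add_le _ _

lemma pull_apply {F : Type*} [Field F] (Θ : F →+* PadicAlgCl 2) (x : F) : pull Θ x = ‖Θ x‖ := rfl

lemma pull_na {F : Type*} [Field F] (Θ : F →+* PadicAlgCl 2) : IsNonarchimedean (pull Θ) := by
  intro x y
  rw [pull_apply, pull_apply, pull_apply, map_add]
  exact PadicAlgCl.isNonarchimedean 2 _ _

lemma pull_two {F : Type*} [Field F] (Θ : F →+* PadicAlgCl 2) : pull Θ 2 < 1 := by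
  rw [pull_apply, map_ofNat]
  exact norm_two_algCl

lemma pull_res {F : Type*} [Field F] (Θ : F →+* PadicAlgCl 2) (x : F) (hx : ‖Θ x‖ ≤ 1) :
    ∃ f : Polynomial ℤ, f.Monic ∧ pull Θ (Polynomial.aeval x f) < 1 := by
  obtain ⟨f, hf, hs⟩ := residue_alg (Θ x) hx
  refine ⟨f, hf, ?_⟩
  have : Θ (Polynomial.aeval x f) = Polynomial.aeval (Θ x) f := by
    rw [Polynomial.aeval_def, Polynomial.hom_eval₂, Polynomial.aeval_def]
    congr 1
    exact RingHom.ext_int _ _
  rw [pull_apply, this]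
  exact hs

lemma integral_norm {F : Type*} [Field F] (Θ : F →+* PadicAlgCl 2) (x : F) (m : ℤ) (hm : Odd m)
    (hx : IsIntegral ℤ ((m : F) * x)) : ‖Θ x‖ ≤ 1 := by
  obtain ⟨f, hf, h0⟩ := hx
  have h2 : Θ (Polynomial.eval₂ (algebraMap ℤ F) ((m : F) * x) f) = 0 := by
    rw [h0, map_zero]
  rw [Polynomial.hom_eval₂] at h2
  have h3 : ‖Θ ((m : F) * x)‖ ≤ 1 := by
    refine norm_le_one_of_small _ f hf (lt_of_eq_of_lt ?_ one_pos)
    rw [norm_eq_zero, Polynomial.aeval_def]
    convert h2 using 1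
    congr 1
    exact RingHom.ext_int _ _
  have h4 : ‖Θ (m : F)‖ = 1 := by
    obtain ⟨t, rfl⟩ := hm
    have h5 : Θ ((2 * t + 1 : ℤ) : F) = 2 * (t : PadicAlgCl 2) + 1 := by
      push_cast
      rw [map_add, map_mul, map_ofNat, map_intCast, map_one]
    rw [h5]
    have h6 : ‖2 * (t : PadicAlgCl 2)‖ < 1 := by
      rw [norm_mul]
      have h7 := IsUltrametricDist.norm_intCast_le_one (PadicAlgCl 2) t
      calc ‖(2 : PadicAlgCl 2)‖ * ‖(t : PadicAlgCl 2)‖ ≤ ‖(2 : PadicAlgCl 2)‖ * 1 := by gcongr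
        _ < 1 := by
          rw [mul_one]
          exact norm_two_algCl
    have h8 : ‖2 * (t : PadicAlgCl 2)‖ ≠ ‖(1 : PadicAlgCl 2)‖ := by
      rw [norm_one]
      exact h6.ne
    rw [IsUltrametricDist.norm_add_eq_max_of_norm_ne_norm h8, norm_one]
    exact max_eq_right h6.le
  rw [map_mul, norm_mul, h4, one_mul] at h3
  exact h3

end R811.DML
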