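import Mathlib

/-!
The map `Phi(x,y,z) = (x²+y, y²+z, z²+x)` over a finite commutative ring in which `16 = 0`:
some iterate `Phi^d` is the identity on the thickened point `b + 4X` of the orbit.
-/

set_option autoImplicit false

namespace R811.DML

open MvPolynomial

section dyn

variable {R : Type*} [CommRing R]

/-- The map `(x,y,z) ↦ (x²+y, y²+z, z²+x)` on triples of elements of a commutative ring. -/
def Phi (v : Fin 3 → R) : Fin 3 → R :=
  ![v 0 ^ 2 + v 1, v 1 ^ 2 + v 2, v 2 ^ 2 + v 0]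

lemma map_Phi {S : Type*} [CommRing S] (f : R →+* S) (v : Fin 3 → R) :
    (fun i => f (Phi v i)) = Phi (fun i => f (v i)) := by
  funext i
  fin_cases i <;> simp [Phi]

lemma map_Phi_iter {S : Type*} [CommRing S] (f : R →+* S) (n : ℕ) (v : Fin 3 → R) :
    (fun i => f (Phi^[n] v i)) = Phi^[n] (fun i => f (v i)) := by
  induction n generalizing v with
  | zero => rfl
  | succ n ih =>
    rw [Function.iterate_succ_apply, Function.iterate_succ_apply, ih (Phi v), map_Phi]

/-- The Jacobian matrix of `Phi`. -/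
def D (a : Fin 3 → R) : Matrix (Fin 3) (Fin 3) R :=
  !![2 * a 0, 1, 0; 0, 2 * a 1, 1; 1, 0, 2 * a 2]

lemma det_D (a : Fin 3 → R) : (D a).det = 8 * (a 0 * a 1 * a 2) + 1 := by
  rw [D, Matrix.det_fin_three]
  simp
  ring

lemma isUnit_D (h16 : (16 : R) = 0) (a : Fin 3 → R) : IsUnit (D a) := by
  rw [Matrix.isUnit_iff_isUnit_det, det_D]
  refine IsUnit.of_mul_eq_one (1 - 8 * (a 0 * a 1 * a 2)) ?_
  have : (64 : R) = 0 := by
    have : (64 : R) = 4 * 16 := by norm_num
    rw [this, h16, mul_zero]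
  linear_combination (-(a 0 * a 1 * a 2) ^ 2) * this

/-- The thickened point `a + 4 J X`. -/
noncomputable def L (a : Fin 3 → R) (J : Matrix (Fin 3) (Fin 3) R) :
    Fin 3 → MvPolynomial (Fin 3) R :=
  fun i => C (a i) + 4 * ∑ j, C (J i j) * X j

lemma Phi_L (h16 : (16 : R) = 0) (a : Fin 3 → R) (J : Matrix (Fin 3) (Fin 3) R) :
    Phi (L a J) = L (Phi a) (D a * J) := by
  have h : (16 : MvPolynomial (Fin 3) R) = 0 := by
    rw [← map_ofNat (C : R →+* MvPolynomial (Fin 3) R) 16, h16, map_zero]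
  have c2 : (C (2 : R) : MvPolynomial (Fin 3) R) = 2 := map_ofNat C 2
  funext i
  fin_cases i
  · simp [Phi, L, D, Matrix.mul_apply, Fin.sum_univ_three, c2]
    linear_combination (C (J 0 0) * X 0 + C (J 0 1) * X 1 + C (J 0 2) * X 2) ^ 2 * h
  · simp [Phi, L, D, Matrix.mul_apply, Fin.sum_univ_three, c2]
    linear_combination (C (J 1 0) * X 0 + C (J 1 1) * X 1 + C (J 1 2) * X 2) ^ 2 * h
  · simp [Phi, L, D, Matrix.mul_apply, Fin.sum_univ_three, c2]
    linear_combination (C (J 2 0) * X 0 + C (J 2 1) * X 1 + C (J 2 2) * X 2) ^ 2 * h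

/-- The tangent dynamics. -/
def T (s : (Fin 3 → R) × Matrix (Fin 3) (Fin 3) R) :
    (Fin 3 → R) × Matrix (Fin 3) (Fin 3) R :=
  (Phi s.1, D s.1 * s.2)

lemma Phi_iter_L (h16 : (16 : R) = 0) (n : ℕ) (s : (Fin 3 → R) × Matrix (Fin 3) (Fin 3) R) :
    Phi^[n] (L s.1 s.2) = L (T^[n] s).1 (T^[n] s).2 := by
  induction n generalizing s with
  | zero => rfl
  | succ n ih =>
    rw [Function.iterate_succ_apply, Phi_L h16, Function.iterate_succ_apply]
    exact ih (T s)

lemma T_iter_fst (n : ℕ) (s : (Fin 3 → R) × Matrix (Fin 3) (Fin 3) R) :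
    (T^[n] s).1 = Phi^[n] s.1 := by
  induction n generalizing s with
  | zero => rfl
  | succ n ih =>
    rw [Function.iterate_succ_apply, Function.iterate_succ_apply, ih]
    rfl

lemma T_iter_unit (h16 : (16 : R) = 0) (n : ℕ) (s : (Fin 3 → R) × Matrix (Fin 3) (Fin 3) R)
    (hs : IsUnit s.2) : IsUnit (T^[n] s).2 := by
  induction n generalizing s with
  | zero => exact hs
  | succ n ih =>
    rw [Function.iterate_succ_apply]
    exact ih (T s) ((isUnit_D h16 s.1).mul hs)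

/-- Substitution of linear forms in a thickened point. -/
lemma subst_L (a : Fin 3 → R) (J N : Matrix (Fin 3) (Fin 3) R) :
    (fun i => (MvPolynomial.aeval (fun j => ∑ k, C (N j k) * X k) :
      MvPolynomial (Fin 3) R →ₐ[R] MvPolynomial (Fin 3) R) (L a J i)) = L a (J * N) := by
  funext i
  simp only [L, map_add, map_mul, map_sum, MvPolynomial.algHom_C, MvPolynomial.aeval_X,
    MvPolynomial.algebraMap_eq, Matrix.mul_apply]
  have h4 : (MvPolynomial.aeval (fun j => ∑ k, C (N j k) * X k) :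
      MvPolynomial (Fin 3) R →ₐ[R] MvPolynomial (Fin 3) R) 4 = 4 := map_ofNat _ 4
  rw [h4]
  simp only [Fin.sum_univ_three]
  ring

/-- **The pigeonhole step.** -/
theorem pigeon [Finite R] (h16 : (16 : R) = 0) (a : Fin 3 → R) :
    ∃ n d : ℕ, 0 < d ∧
      Phi^[d] (fun i => C (Phi^[n] a i) + 4 * X i : Fin 3 → MvPolynomial (Fin 3) R)
        = (fun i => C (Phi^[n] a i) + 4 * X i) := by
  have : Finite ((Fin 3 → R) × Matrix (Fin 3) (Fin 3) R) := by
    have : Finite (Matrix (Fin 3) (Fin 3) R) := by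
      unfold Matrix
      infer_instance
    infer_instance
  obtain ⟨n, m, hnm, he⟩ :=
    Finite.exists_ne_map_eq_of_infinite (fun k : ℕ => T^[k] ((a, 1) : (Fin 3 → R) × Matrix (Fin 3) (Fin 3) R))
  wlog hlt : n < m generalizing n m with H
  · exact H m n hnm.symm he.symm (lt_of_le_of_ne (not_lt.1 hlt) hnm.symm)
  obtain ⟨d, rfl⟩ := Nat.exists_eq_add_of_lt hlt
  refine ⟨n, d + 1, Nat.succ_pos d, ?_⟩
  set s := T^[n] ((a, 1) : (Fin 3 → R) × Matrix (Fin 3) (Fin 3) R) with hs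
  have hT : T^[d + 1] s = s := by
    rw [hs, ← Function.iterate_add_apply]
    have : d + 1 + n = n + d + 1 := by ring
    rw [this]
    exact he.symm
  have hu : IsUnit s.2 := T_iter_unit h16 n _ isUnit_one
  have hs1 : s.1 = Phi^[n] a := T_iter_fst n _
  obtain ⟨U, hU⟩ := hu
  have h1 : Phi^[d + 1] (L s.1 s.2) = L s.1 s.2 := by
    rw [Phi_iter_L h16, hT]
  have h2 : Phi^[d + 1] (L s.1 1) = L s.1 1 := by
    obtain ⟨ψ, hψ⟩ : ∃ ψ : MvPolynomial (Fin 3) R →+* MvPolynomial (Fin 3) R,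
        (fun i => ψ (L s.1 s.2 i)) = L s.1 (s.2 * (↑U⁻¹ : Matrix (Fin 3) (Fin 3) R)) :=
      ⟨(MvPolynomial.aeval (fun j => ∑ k, C ((↑U⁻¹ : Matrix (Fin 3) (Fin 3) R) j k) * X k) :
        MvPolynomial (Fin 3) R →ₐ[R] MvPolynomial (Fin 3) R).toRingHom, subst_L _ _ _⟩
    have e1 : s.2 * (↑U⁻¹ : Matrix (Fin 3) (Fin 3) R) = 1 := by
      rw [← hU]
      exact U.mul_inv
    rw [e1] at hψ
    have e4 := map_Phi_iter ψ (d + 1) (L s.1 s.2)
    rw [hψ, h1, hψ] at e4
    exact e4.symm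
  have h3 : L s.1 1 = fun i => C (Phi^[n] a i) + 4 * X i := by
    funext i
    rw [L, hs1]
    simp [Matrix.one_apply]
  rw [← h3]
  exact h2

end dyn

end R811.DML
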