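import Mathlib

/-!
A valuation `w` on a field `F` together with `x`, `w x < 1`, such that every non-zero `g` satisfies
`w x ^ N ≤ w g` for some `N`, has a real valued coarsening.
-/

set_option autoImplicit false

namespace R811.DML

variable {F : Type*} [Field F] {Γ : Type*} [LinearOrderedCommGroupWithZero Γ]
  (w : Valuation F Γ) (x : F)

/-- The set of rationals `p/q` with `v(g) ≥ (p/q) v(x)`, as a set of reals. -/
def LL (g : F) : Set ℝ := {t | ∃ (p : ℤ) (q : ℕ), 0 < q ∧ t = p / q ∧ w g ^ q ≤ w x ^ p}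

variable {w x}

lemma LL_mem {g : F} {p : ℤ} {q : ℕ} (hq : 0 < q) (h : w g ^ q ≤ w x ^ p) :
    ((p : ℝ) / q) ∈ LL w x g := ⟨p, q, hq, rfl, h⟩

lemma zpow_le_one_iff (hx0 : w x ≠ 0) (hx1 : w x < 1) (p : ℤ) : 1 ≤ w x ^ p ↔ p ≤ 0 := by
  constructor
  · intro h
    by_contra hcon
    have hp : 0 < p := not_le.1 hcon
    obtain ⟨n, rfl⟩ := Int.eq_ofNat_of_zero_le hp.le
    have hn : n ≠ 0 := by
      rintro rfl
      simp at hp
    have h1 : w x ^ (n : ℤ) < 1 := by
      rw [zpow_natCast]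
      exact pow_lt_one' hx1 hn
    exact absurd h (not_le.2 h1)
  · intro hp
    obtain ⟨n, hn⟩ := Int.eq_ofNat_of_zero_le (neg_nonneg.2 hp)
    have : p = -(n : ℤ) := by
      have h2 : -p = (n : ℤ) := hn
      omega
    rw [this, zpow_neg, zpow_natCast]
    have h3 : w x ^ n ≤ 1 := pow_le_one' hx1.le n
    exact (one_le_inv₀ (zero_lt_iff.2 (pow_ne_zero n hx0))).2 h3

section main

variable (hx0 : w x ≠ 0) (hx1 : w x < 1) (hN : ∀ g : F, g ≠ 0 → ∃ N : ℕ, w x ^ N ≤ w g)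

include hx0 in
lemma LL_add {g h : F} {t t' : ℝ} (ht : t ∈ LL w x g) (ht' : t' ∈ LL w x h) :
    t + t' ∈ LL w x (g * h) := by
  obtain ⟨p, q, hq, rfl, hpq⟩ := ht
  obtain ⟨p', q', hq', rfl, hpq'⟩ := ht'
  have hq1 : (q : ℝ) ≠ 0 := by positivity
  have hq2 : (q' : ℝ) ≠ 0 := by positivity
  refine ⟨p * q' + p' * q, q * q', Nat.mul_pos hq hq', ?_, ?_⟩
  · push_cast
    field_simp
  · rw [map_mul, mul_pow, pow_mul, mul_comm q q', pow_mul (w h), zpow_add₀ hx0, zpow_mul, zpow_mul,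
      zpow_natCast, zpow_natCast]
    exact mul_le_mul' (pow_le_pow_left' hpq _) (pow_le_pow_left' hpq' _)

include hx0 hx1 hN in
lemma LL_bdd {g : F} (hg : g ≠ 0) : BddAbove (LL w x g) := by
  obtain ⟨N, hN⟩ := hN g hg
  refine ⟨N, ?_⟩
  rintro _ ⟨p, q, hq, rfl, hpq⟩
  have h1 : w x ^ ((N * q : ℕ) : ℤ) ≤ w x ^ p := by
    rw [zpow_natCast, pow_mul]
    exact (pow_le_pow_left' hN q).trans hpq
  have h2 : 1 ≤ w x ^ (p - ((N * q : ℕ) : ℤ)) := by
    rw [zpow_sub₀ hx0]
    exact (one_le_div₀ (zero_lt_iff.2 (zpow_ne_zero _ hx0))).2 h1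
  have h3 := (zpow_le_one_iff hx0 hx1 _).1 h2
  have h4 : (p : ℝ) ≤ N * q := by
    have : p ≤ ((N * q : ℕ) : ℤ) := by omega
    exact_mod_cast this
  rw [div_le_iff₀ (by positivity)]
  exact h4

include hx0 hN in
lemma LL_nonempty {g : F} (hg : g ≠ 0) : (LL w x g).Nonempty := by
  obtain ⟨N, hN⟩ := hN g⁻¹ (inv_ne_zero hg)
  refine ⟨((-(N : ℤ) : ℤ) : ℝ) / (1 : ℕ), -(N : ℤ), 1, one_pos, rfl, ?_⟩
  have hwg : w g ≠ 0 := (Valuation.ne_zero_iff w).2 hg
  rw [pow_one, zpow_neg, zpow_natCast]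
  rw [map_inv₀] at hN
  exact (le_inv_comm₀ (zero_lt_iff.2 (pow_ne_zero _ hx0)) (zero_lt_iff.2 hwg)).1 hN

include hx0 in
lemma LL_or {g : F} (hg : g ≠ 0) (p : ℤ) (q : ℕ) (hq : 0 < q) :
    ((p : ℝ) / q) ∈ LL w x g ∨ (-((p : ℝ) / q)) ∈ LL w x g⁻¹ := by
  by_cases h : w g ^ q ≤ w x ^ p
  · exact Or.inl (LL_mem hq h)
  · right
    refine ⟨-p, q, hq, by push_cast; ring, ?_⟩
    have hwg : w g ≠ 0 := (Valuation.ne_zero_iff w).2 hg
    rw [map_inv₀, inv_pow, zpow_neg]
    exact (inv_le_inv₀ (zero_lt_iff.2 (pow_ne_zero _ hwg)) (zero_lt_iff.2 (zpow_ne_zero _ hx0))).2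
      (not_le.1 h).le

/-- The real valuation (additive notation). -/
noncomputable def nu (w : Valuation F Γ) (x g : F) : ℝ := sSup (LL w x g)

include hx0 hx1 in
lemma nu_one : nu w x 1 = 0 := by
  apply le_antisymm
  · refine csSup_le ⟨((0 : ℤ) : ℝ) / (1 : ℕ), LL_mem one_pos (by simp)⟩ ?_
    rintro _ ⟨p, q, hq, rfl, hpq⟩
    rw [map_one, one_pow] at hpq
    have h1 := (zpow_le_one_iff hx0 hx1 p).1 hpq
    have h2 : (p : ℝ) ≤ 0 := by exact_mod_cast h1
    exact div_nonpos_of_nonpos_of_nonneg h2 (by positivity)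
  · have hb : BddAbove (LL w x (1 : F)) := by
      refine ⟨0, ?_⟩
      rintro _ ⟨p, q, hq, rfl, hpq⟩
      rw [map_one, one_pow] at hpq
      have h1 := (zpow_le_one_iff hx0 hx1 p).1 hpq
      have h2 : (p : ℝ) ≤ 0 := by exact_mod_cast h1
      exact div_nonpos_of_nonpos_of_nonneg h2 (by positivity)
    have h3 := le_csSup hb (LL_mem (w := w) (x := x) (g := (1 : F)) (p := 0) one_pos (by simp))
    have h4 : (((0 : ℤ) : ℝ) / (1 : ℕ)) = 0 := by simp
    rw [h4] at h3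
    exact h3

include hx0 hx1 hN in
lemma nu_super {g h : F} (hg : g ≠ 0) (hh : h ≠ 0) : nu w x g + nu w x h ≤ nu w x (g * h) := by
  have hgh : g * h ≠ 0 := mul_ne_zero hg hh
  unfold nu
  rw [← csSup_add (LL_nonempty hx0 hN hg) (LL_bdd hx0 hx1 hN hg) (LL_nonempty hx0 hN hh)
    (LL_bdd hx0 hx1 hN hh)]
  refine csSup_le_csSup (LL_bdd hx0 hx1 hN hgh)
    ((LL_nonempty hx0 hN hg).add (LL_nonempty hx0 hN hh)) ?_
  rintro _ ⟨t, ht, t', ht', rfl⟩
  exact LL_add hx0 ht ht'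

include hx0 hx1 hN in
lemma nu_inv {g : F} (hg : g ≠ 0) : nu w x g⁻¹ = - nu w x g := by
  apply le_antisymm
  · have h1 := nu_super hx0 hx1 hN hg (inv_ne_zero hg)
    rw [mul_inv_cancel₀ hg, nu_one hx0 hx1] at h1
    linarith
  · by_contra hcon
    have hcon' : nu w x g < - nu w x g⁻¹ := by linarith [not_le.1 hcon]
    obtain ⟨r, hr1, hr2⟩ := exists_rat_btwn hcon'
    have hr : (r : ℝ) = (r.num : ℝ) / (r.den : ℕ) := by
      exact_mod_cast (Rat.num_div_den r).symm
    rcases LL_or (w := w) (x := x) hx0 hg r.num r.den r.den_pos with h | h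
    · rw [← hr] at h
      have := le_csSup (LL_bdd hx0 hx1 hN hg) h
      unfold nu at hr1
      linarith
    · rw [← hr] at h
      have := le_csSup (LL_bdd hx0 hx1 hN (inv_ne_zero hg)) h
      unfold nu at hr2
      linarith

include hx0 hx1 hN in
lemma nu_mul {g h : F} (hg : g ≠ 0) (hh : h ≠ 0) : nu w x (g * h) = nu w x g + nu w x h := by
  apply le_antisymm
  · have h1 := nu_super hx0 hx1 hN (mul_ne_zero hg hh) (inv_ne_zero hh)
    rw [mul_inv_cancel_right₀ hh, nu_inv hx0 hx1 hN hh] at h1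
    linarith
  · exact nu_super hx0 hx1 hN hg hh

include hx0 hx1 hN in
lemma nu_mono {g h : F} (hg : g ≠ 0) (hh : h ≠ 0) (hle : w g ≤ w h) : nu w x h ≤ nu w x g := by
  refine csSup_le_csSup (LL_bdd hx0 hx1 hN hg) (LL_nonempty hx0 hN hh) ?_
  rintro _ ⟨p, q, hq, rfl, hpq⟩
  exact LL_mem hq ((pow_le_pow_left' hle q).trans hpq)

include hx0 hx1 hN in
lemma nu_pos {g : F} (hg : g ≠ 0) (hle : w g ≤ w x) : 1 ≤ nu w x g := by
  have h1 := le_csSup (LL_bdd hx0 hx1 hN hg)
    (LL_mem (w := w) (x := x) (g := g) (p := 1) (q := 1) one_pos (by simpa using hle))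
  have h4 : (((1 : ℤ) : ℝ) / (1 : ℕ)) = 1 := by simp
  rw [h4] at h1
  exact h1

end main

/-- **The real valued coarsening.** -/
theorem exists_abs (hx1 : w x < 1) (hx0 : x ≠ 0)
    (hN : ∀ g : F, g ≠ 0 → ∃ N : ℕ, w x ^ N ≤ w g) :
    ∃ v : AbsoluteValue F ℝ, IsNonarchimedean v ∧ ∀ g, w g ≤ w x → v g < 1 := by
  classical
  have hwx : w x ≠ 0 := (Valuation.ne_zero_iff w).2 hx0
  let f : F → ℝ := fun g => if g = 0 then 0 else Real.exp (-nu w x g)
  have hf0 : f 0 = 0 := by simp [f]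
  have hfpos : ∀ g, g ≠ 0 → f g = Real.exp (-nu w x g) := fun g hg => by simp [f, hg]
  have hfnn : ∀ g, 0 ≤ f g := by
    intro g
    by_cases hg : g = 0
    · rw [hg, hf0]
    · rw [hfpos g hg]
      positivity
  have hna : ∀ g h, f (g + h) ≤ max (f g) (f h) := by
    intro g h
    by_cases hg : g = 0
    · rw [hg, zero_add]
      exact le_max_right _ _
    by_cases hh : h = 0
    · rw [hh, add_zero]
      exact le_max_left _ _
    by_cases hgh : g + h = 0
    · rw [hgh, hf0]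
      exact le_max_of_le_left (hfnn g)
    rw [hfpos _ hg, hfpos _ hh, hfpos _ hgh]
    rcases le_total (w g) (w h) with hle | hle
    · refine le_max_of_le_right (Real.exp_le_exp.2 (neg_le_neg ?_))
      exact nu_mono hwx hx1 hN hgh hh ((Valuation.map_add w g h).trans (max_le hle le_rfl))
    · refine le_max_of_le_left (Real.exp_le_exp.2 (neg_le_neg ?_))
      exact nu_mono hwx hx1 hN hgh hg ((Valuation.map_add w g h).trans (max_le le_rfl hle))
  let v : AbsoluteValue F ℝ :=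
    { toFun := f
      map_mul' := by
        intro g h
        by_cases hg : g = 0
        · rw [hg, zero_mul, hf0, zero_mul]
        by_cases hh : h = 0
        · rw [hh, mul_zero, hf0, mul_zero]
        rw [hfpos _ hg, hfpos _ hh, hfpos _ (mul_ne_zero hg hh), nu_mul hwx hx1 hN hg hh,
          ← Real.exp_add]
        congr 1
        ring
      nonneg' := hfnn
      eq_zero' := by
        intro g
        constructor
        · intro h
          by_contra hg
          rw [hfpos g hg] at h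
          exact (Real.exp_pos _).ne' h
        · intro h
          rw [h, hf0]
      add_le' := by
        intro g h
        exact (hna g h).trans (max_le_add_of_nonneg (hfnn g) (hfnn h)) }
  refine ⟨v, hna, ?_⟩
  intro g hg
  change f g < 1
  by_cases hg0 : g = 0
  · rw [hg0, hf0]
    exact one_pos
  · rw [hfpos g hg0]
    have := nu_pos hwx hx1 hN hg0 hg
    rw [← Real.exp_zero]
    exact Real.exp_lt_exp.2 (by linarith)

end R811.DML
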