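import Mathlib

/-!
A Strassmann type theorem for Mahler series with coefficients divisible by `4^m`, over the
valuation ring of a nonarchimedean normed field in which `‖2‖ < 1`.
-/

set_option autoImplicit false

namespace R811.DML

open Polynomial Finset

variable (K : Type*) [NormedField K] [IsUltrametricDist K]

/-- The closed unit ball of an ultrametric normed field. -/
noncomputable abbrev O : ValuationSubring K := (NormedField.valuation (K := K)).valuationSubring

variable {K}

lemma mem_O (x : K) : x ∈ O K ↔ ‖x‖ ≤ 1 := by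
  rw [Valuation.mem_valuationSubring_iff, NormedField.valuation_apply]
  norm_cast

lemma norm_O (x : O K) : ‖(x : K)‖ ≤ 1 := (mem_O _).1 x.2

lemma isUnit_O (x : O K) : IsUnit x ↔ ‖(x : K)‖ = 1 := by
  constructor
  · rintro ⟨u, rfl⟩
    have h := congrArg (fun t : O K => ‖(t : K)‖) u.mul_inv
    simp only [MulMemClass.coe_mul, norm_mul, OneMemClass.coe_one, norm_one] at h
    have h1 := norm_O (u : O K)
    have h2 := norm_O ((u⁻¹ : (O K)ˣ) : O K)
    nlinarith [norm_nonneg ((u : O K) : K), norm_nonneg (((u⁻¹ : (O K)ˣ) : O K) : K)]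
  · intro h
    have hx : (x : K) ≠ 0 := by
      intro h0
      rw [h0, norm_zero] at h
      exact zero_ne_one h
    refine IsUnit.of_mul_eq_one ⟨(x : K)⁻¹, (mem_O _).2 ?_⟩ ?_
    · rw [norm_inv, h, inv_one]
    · ext
      simp [hx]

lemma mem_max_O (x : O K) : x ∈ IsLocalRing.maximalIdeal (O K) ↔ ‖(x : K)‖ < 1 := by
  rw [IsLocalRing.mem_maximalIdeal, mem_nonunits_iff, isUnit_O]
  exact ⟨fun h => lt_of_le_of_ne (norm_O x) h, fun h => h.ne⟩

lemma dvd_O (a b : O K) (ha : a ≠ 0) (h : ‖(b : K)‖ ≤ ‖(a : K)‖) : ∃ c : O K, b = a * c := by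
  have ha' : (a : K) ≠ 0 := fun h0 => ha (by ext; exact h0)
  refine ⟨⟨(b : K) / a, (mem_O _).2 ?_⟩, ?_⟩
  · rw [norm_div]
    exact div_le_one_of_le₀ h (norm_nonneg _)
  · ext
    simp only [MulMemClass.coe_mul]
    field_simp

lemma fact_dvd (h2 : ‖(2 : K)‖ < 1) (m : ℕ) : ∃ w : O K, (m.factorial : O K) * w = 2 ^ m := by
  obtain ⟨k, q, hq, hm⟩ := Nat.exists_eq_two_pow_mul_odd (Nat.factorial_ne_zero m)
  have hk : k ≤ m := by
    have h := sub_one_mul_padicValNat_factorial (p := 2) m
    have h3 : padicValNat 2 m.factorial ≤ m := by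
      simp at h
      omega
    have h4 : k ≤ padicValNat 2 m.factorial := by
      rw [← padicValNat_dvd_iff_le (Nat.factorial_ne_zero m)]
      exact ⟨q, hm⟩
    exact h4.trans h3
  have hu : IsUnit ((q : ℕ) : O K) := by
    obtain ⟨t, rfl⟩ := hq
    have h2m : (2 : O K) ∈ IsLocalRing.maximalIdeal (O K) := by
      rw [mem_max_O]
      exact h2
    have hn : (2 * (t : O K)) ∈ IsLocalRing.maximalIdeal (O K) :=
      Ideal.mul_mem_right _ _ h2m
    by_contra hcon
    have h5 : ((2 * t + 1 : ℕ) : O K) ∈ IsLocalRing.maximalIdeal (O K) := by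
      rw [IsLocalRing.mem_maximalIdeal]
      exact hcon
    have h6 : (1 : O K) ∈ IsLocalRing.maximalIdeal (O K) := by
      have h7 := Ideal.sub_mem _ h5 hn
      have h8 : ((2 * t + 1 : ℕ) : O K) - 2 * (t : O K) = 1 := by
        push_cast
        ring
      rwa [h8] at h7
    exact (Ideal.ne_top_iff_one _).1 (IsLocalRing.maximalIdeal.isMaximal (O K)).ne_top h6
  obtain ⟨u, hu⟩ := hu
  refine ⟨(↑u⁻¹ : O K) * 2 ^ (m - k), ?_⟩
  rw [hm]
  push_cast
  rw [← hu]
  have e : (2 : O K) ^ k * ↑u * (↑u⁻¹ * 2 ^ (m - k)) = (2 ^ k * 2 ^ (m - k)) * (↑u * ↑u⁻¹) := by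
    ring
  rw [e, u.mul_inv, mul_one, ← pow_add]
  congr 1
  omega

omit [IsUltrametricDist K] in
lemma exists_last_max (d : ℕ → K) (r : ℝ) (hr0 : 0 ≤ r) (hr : r < 1)
    (hd : ∀ m, ‖d m‖ ≤ r ^ m) (hne : ∃ m, d m ≠ 0) :
    ∃ M, d M ≠ 0 ∧ (∀ m, ‖d m‖ ≤ ‖d M‖) ∧ ∀ m, M < m → ‖d m‖ < ‖d M‖ := by
  obtain ⟨m0, hm0⟩ := hne
  have hc : 0 < ‖d m0‖ := norm_pos_iff.2 hm0
  obtain ⟨N, hN⟩ := exists_pow_lt_of_lt_one hc hr
  have hlarge : ∀ m, N ≤ m → ‖d m‖ < ‖d m0‖ := fun m hm =>
    lt_of_le_of_lt ((hd m).trans (pow_le_pow_of_le_one hr0 hr.le hm)) hN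
  obtain ⟨M1, hM1, hmax⟩ := Finset.exists_max_image (Finset.range (N + m0 + 1)) (fun m => ‖d m‖)
    ⟨m0, by simp⟩
  have hglob : ∀ m, ‖d m‖ ≤ ‖d M1‖ := by
    intro m
    by_cases hm : m < N + m0 + 1
    · exact hmax m (Finset.mem_range.2 hm)
    · exact ((hlarge m (by omega)).le).trans (hmax m0 (Finset.mem_range.2 (by omega)))
  let S : Set ℕ := {m | ∀ j, ‖d j‖ ≤ ‖d m‖}
  have hfin : S.Finite := by
    refine Set.Finite.subset (Set.finite_lt_nat N) ?_
    intro m hm
    by_contra hcon
    exact absurd (hm m0) (not_le.2 (hlarge m (not_lt.1 hcon)))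
  obtain ⟨M, hM, hMmax⟩ := Set.exists_max_image S id hfin ⟨M1, hglob⟩
  refine ⟨M, ?_, hM, ?_⟩
  · intro h0
    have := hM m0
    rw [h0, norm_zero] at this
    linarith
  · intro m hm
    by_contra hcon
    have : m ∈ S := fun j => (hM j).trans (not_lt.1 hcon)
    have := hMmax m this
    simp at this
    omega

/-- **Strassmann's theorem for Mahler series.** -/
theorem strass [CharZero K] (h2 : ‖(2 : K)‖ < 1) (f a : ℕ → O K)
    (ha : ∀ n, a n = ∑ m ∈ range (n + 1), (n.choose m : O K) * 4 ^ m * f m)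
    (hinf : {n | a n = 0}.Infinite) : ∀ n, a n = 0 := by
  classical
  choose w hw using fun m => fact_dvd h2 m
  let d : ℕ → O K := fun m => 2 ^ m * w m * f m
  have hdm : ∀ m, (m.factorial : O K) * d m = 4 ^ m * f m := by
    intro m
    have e : (m.factorial : O K) * d m = (m.factorial * w m) * 2 ^ m * f m := by
      simp only [d]
      ring
    rw [e, hw, ← mul_pow]
    norm_num
  by_cases hall : ∀ m, d m = 0
  · intro n
    rw [ha]
    refine Finset.sum_eq_zero fun m _ => ?_
    rw [mul_assoc, ← hdm, hall, mul_zero, mul_zero]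
  exfalso
  push Not at hall
  obtain ⟨M, hM0, hMmax, hMlast⟩ := exists_last_max (fun m => (d m : K)) ‖(2 : K)‖ (norm_nonneg _) h2
    (by
      intro m
      simp only [d]
      push_cast
      rw [norm_mul, norm_mul, norm_pow]
      have h1 := norm_O (w m)
      have h3 := norm_O (f m)
      calc ‖(2 : K)‖ ^ m * ‖(w m : K)‖ * ‖(f m : K)‖ ≤ ‖(2 : K)‖ ^ m * 1 * 1 := by gcongr
        _ = _ := by ring)
    (by
      obtain ⟨m, hm⟩ := hall
      exact ⟨m, fun h => hm (by ext; exact h)⟩)
  have hM0' : d M ≠ 0 := fun h => hM0 (by rw [h]; rfl)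
  choose E hE using fun m => dvd_O (d M) (d m) hM0' (hMmax m)
  have hEM : E M = 1 := by
    have := hE M
    exact (mul_left_cancel₀ hM0' (by rw [mul_one]; exact this)).symm
  have hElast : ∀ m, M < m → E m ∈ IsLocalRing.maximalIdeal (O K) := by
    intro m hm
    rw [mem_max_O]
    have h1 := hMlast m hm
    have h3 : ‖(d m : K)‖ = ‖(d M : K)‖ * ‖(E m : K)‖ := by
      rw [← norm_mul]
      congr 1
      have := congrArg (fun t : O K => (t : K)) (hE m)
      simpa using this
    have h4 : 0 < ‖(d M : K)‖ := norm_pos_iff.2 hM0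
    by_contra hcon
    have h5 : 1 ≤ ‖(E m : K)‖ := not_lt.1 hcon
    have : ‖(d M : K)‖ * 1 ≤ ‖(d M : K)‖ * ‖(E m : K)‖ := mul_le_mul_of_nonneg_left h5 h4.le
    linarith
  -- choose `M+1` zeros
  obtain ⟨Z, hZsub, hZcard⟩ := hinf.exists_subset_card_eq (M + 1)
  let N := Z.sup id + M
  have hZN : ∀ n ∈ Z, n ≤ N := fun n hn =>
    (Finset.le_sup (f := id) hn).trans (Nat.le_add_right _ _)
  let Q : (O K)[X] := ∑ m ∈ range (N + 1), C (E m) * descPochhammer (O K) m
  have hQ : ∀ n ∈ Z, Q.eval (n : O K) = 0 := by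
    intro n hn
    have h1 : d M * Q.eval (n : O K) = a n := by
      simp only [Q, eval_finsetSum, eval_mul, eval_C, Finset.mul_sum]
      rw [ha, ← Finset.sum_subset (s₁ := range (n + 1))]
      · refine Finset.sum_congr rfl fun m _ => ?_
        rw [descPochhammer_eval_eq_descFactorial, Nat.descFactorial_eq_factorial_mul_choose,
          ← mul_assoc, ← hE]
        push_cast
        have := hdm m
        linear_combination (n.choose m : O K) * this
      · intro m hm
        simp only [Finset.mem_range] at hm ⊢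
        have := hZN n hn
        omega
      · intro m _ hm
        simp only [Finset.mem_range, not_lt] at hm
        rw [descPochhammer_eval_eq_descFactorial, Nat.descFactorial_eq_zero_iff_lt.2 (by omega)]
        simp
    rw [hZsub hn] at h1
    exact (mul_eq_zero.1 h1).resolve_left hM0'
  let k := IsLocalRing.ResidueField (O K)
  let φ : O K →+* k := IsLocalRing.residue (O K)
  have hmap : Q.map φ = ∑ m ∈ range (M + 1), C (φ (E m)) * descPochhammer k m := by
    simp only [Q, Polynomial.map_sum, Polynomial.map_mul, Polynomial.map_C, descPochhammer_map]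
    symm
    refine Finset.sum_subset ?_ ?_
    · intro m hm
      simp only [Finset.mem_range] at hm ⊢
      omega
    · intro m _ hm
      simp only [Finset.mem_range, not_lt] at hm
      have : φ (E m) = 0 := (IsLocalRing.residue_eq_zero_iff _).2 (hElast m (by omega))
      rw [this, C_0, zero_mul]
  have hmonic : (Q.map φ).Monic ∧ (Q.map φ).natDegree = M := by
    rw [hmap, Finset.sum_range_succ, hEM, map_one, C_1, one_mul, add_comm]
    have hmon := monic_descPochhammer k M
    have hdeg : (∑ m ∈ range M, C (φ (E m)) * descPochhammer k m).degree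
        < (descPochhammer k M).degree := by
      rw [Polynomial.degree_eq_natDegree hmon.ne_zero, descPochhammer_natDegree]
      rw [← Polynomial.mem_degreeLT]
      refine Submodule.sum_mem _ fun m hm => ?_
      have hm' := Finset.mem_range.1 hm
      rw [Polynomial.mem_degreeLT, ← smul_eq_C_mul]
      refine (Polynomial.degree_smul_le _ _).trans_lt ?_
      rw [Polynomial.degree_eq_natDegree (monic_descPochhammer k m).ne_zero,
        descPochhammer_natDegree]
      exact_mod_cast hm'
    refine ⟨hmon.add_of_left hdeg, ?_⟩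
    rw [Polynomial.natDegree_add_eq_left_of_degree_lt hdeg, descPochhammer_natDegree]
  have hQ0 : Q ≠ 0 := by
    intro h0
    have := hmonic.1.ne_zero
    rw [h0, Polynomial.map_zero] at this
    exact this rfl
  have hinj : Function.Injective (fun n : ℕ => (n : O K)) := by
    have : CharZero (O K) := by
      refine ⟨fun x y h => ?_⟩
      have := congrArg (fun t : O K => (t : K)) h
      simpa using this
    exact Nat.cast_injective
  let s : Multiset (O K) := Z.val.map (fun n : ℕ => (n : O K))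
  have hs : s.Nodup := (Multiset.nodup_map_iff_of_injective hinj).2 Z.nodup
  have hdvd : (s.map fun x => X - C x).prod ∣ Q := by
    rw [Multiset.prod_X_sub_C_dvd_iff_le_roots hQ0, Multiset.le_iff_subset hs]
    intro x hx
    obtain ⟨n, hn, rfl⟩ := Multiset.mem_map.1 hx
    rw [Polynomial.mem_roots hQ0]
    exact hQ n hn
  have hdvd2 := Polynomial.map_dvd φ hdvd
  have hle := Polynomial.natDegree_le_of_dvd hdvd2 hmonic.1.ne_zero
  have hcard : (((s.map fun x => X - C x).prod).map φ).natDegree = M + 1 := by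
    have hm : ((s.map fun x => X - C x).prod).Monic :=
      Polynomial.monic_multiset_prod_of_monic _ _ fun x _ => Polynomial.monic_X_sub_C x
    rw [hm.natDegree_map, Polynomial.natDegree_multiset_prod_X_sub_C_eq_card]
    simp only [s, Multiset.card_map]
    exact hZcard
  rw [hcard, hmonic.2] at hle
  omega

end R811.DML
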