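import Pool.Agent.R811.DML.Pigeon
import Pool.Agent.R811.DML.Strass

/-!
The local statement: for a point of the closed unit polydisc whose coordinates are integral modulo
`16`, every polynomial vanishes along the orbit periodically or finitely often.
-/

set_option autoImplicit false

namespace R811.DML

open Finset

/-- Binomial expansion of the iterates of an endomorphism which is the identity modulo `4`. -/
lemma expand {R A : Type*} [CommRing R] [CommRing A] [Algebra R A] (θ : A →ₐ[R] A)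
    (h : ∀ F, ∃ F', θ F = F + 4 * F') (F : A) :
    ∃ E : ℕ → A, E 0 = F ∧
      ∀ n j, θ^[n] (E j) = ∑ m ∈ range (n + 1), (n.choose m : A) * 4 ^ m * E (j + m) := by
  choose δ hδ using h
  refine ⟨fun j => δ^[j] F, rfl, ?_⟩
  have hE : ∀ j, θ (δ^[j] F) = δ^[j] F + 4 * δ^[j + 1] F := by
    intro j
    rw [hδ, Function.iterate_succ_apply']
  intro n
  induction n with
  | zero => intro j; simp
  | succ n ih =>
    intro j
    have hit : ∀ x y : A, θ^[n] (x + 4 * y) = θ^[n] x + 4 * θ^[n] y := by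
      intro x y
      rw [iterate_map_add, iterate_map_mul]
      congr 2
      exact Function.iterate_fixed (map_ofNat θ 4) n
    rw [Function.iterate_succ_apply, hE, hit, ih j, ih (j + 1), Finset.sum_range_succ' _ (n + 1)]
    have e1 : ∑ m ∈ range (n + 1), (((n + 1).choose (m + 1) : ℕ) : A) * 4 ^ (m + 1) * δ^[j + (m + 1)] F
        = ∑ m ∈ range (n + 1), ((n.choose m : ℕ) : A) * 4 ^ (m + 1) * δ^[j + (m + 1)] F
          + ∑ m ∈ range (n + 1), ((n.choose (m + 1) : ℕ) : A) * 4 ^ (m + 1) * δ^[j + (m + 1)] F := by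
      rw [← Finset.sum_add_distrib]
      refine Finset.sum_congr rfl fun m _ => ?_
      rw [Nat.choose_succ_succ]
      push_cast
      ring
    have e2 : ∑ m ∈ range (n + 1), ((n.choose m : ℕ) : A) * 4 ^ m * δ^[j + m] F
        = ∑ m ∈ range (n + 1), ((n.choose (m + 1) : ℕ) : A) * 4 ^ (m + 1) * δ^[j + (m + 1)] F
          + δ^[j] F := by
      rw [Finset.sum_range_succ', Finset.sum_range_succ _ n]
      simp
    rw [e1, e2, Finset.mul_sum]
    have e3 : ∑ i ∈ range (n + 1), 4 * (((n.choose i : ℕ) : A) * 4 ^ i * δ^[j + 1 + i] F)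
        = ∑ m ∈ range (n + 1), ((n.choose m : ℕ) : A) * 4 ^ (m + 1) * δ^[j + (m + 1)] F := by
      refine Finset.sum_congr rfl fun m _ => ?_
      have : j + 1 + m = j + (m + 1) := by ring
      rw [this]
      ring
    rw [e3]
    simp
    ring

variable {K : Type*} [NormedField K] [IsUltrametricDist K]

open MvPolynomial

/-- Integrality modulo `16` of the coordinates gives the thickened periodicity. -/
lemma thick (α : Fin 3 → O K)
    (hint : ∀ i, ∃ f : Polynomial ℤ, f.Monic ∧ ∃ t : O K, Polynomial.aeval (α i) f = 16 * t) :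
    ∃ n d : ℕ, 0 < d ∧ ∃ H : Fin 3 → MvPolynomial (Fin 3) (O K),
      Phi^[d] (fun i => C (Phi^[n] α i) + 4 * X i : Fin 3 → MvPolynomial (Fin 3) (O K))
        = (fun i => C (Phi^[n] α i) + 4 * (X i + 4 * H i)) := by
  let I : Ideal (O K) := Ideal.span {16}
  let Q := O K ⧸ I
  let π : O K →+* Q := Ideal.Quotient.mk I
  have hπ16 : ∀ x : O K, π x = 0 ↔ (16 : O K) ∣ x := by
    intro x
    rw [Ideal.Quotient.eq_zero_iff_mem, Ideal.mem_span_singleton]
  have hQ16 : (16 : Q) = 0 := by
    have : π 16 = 0 := (hπ16 16).2 dvd_rfl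
    rwa [map_ofNat] at this
  let B : Subalgebra ℤ Q := Algebra.adjoin ℤ (Set.range fun i => π (α i))
  have hB16 : (16 : B) = 0 := by
    ext
    exact hQ16
  have hBint : ∀ x ∈ Set.range (fun i => π (α i)), IsIntegral ℤ x := by
    rintro x ⟨i, rfl⟩
    obtain ⟨f, hf, t, ht⟩ := hint i
    refine ⟨f, hf, ?_⟩
    have h1 : π (Polynomial.aeval (α i) f) = 0 := (hπ16 _).2 ⟨t, ht⟩
    rw [Polynomial.aeval_def, Polynomial.hom_eval₂] at h1
    have h0 : algebraMap ℤ Q = π.comp (algebraMap ℤ (O K)) := RingHom.ext_int _ _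
    change Polynomial.eval₂ (algebraMap ℤ Q) (π (α i)) f = 0
    rw [h0]
    exact h1
  have hfg : B.toSubmodule.FG := fg_adjoin_of_finite (Set.finite_range _) hBint
  have hBfin : Finite B := by
    have : Module.Finite ℤ B := Module.Finite.iff_fg.2 hfg
    refine Module.finite_of_fg_torsion B ?_
    intro x
    refine ⟨⟨16, by simp⟩, ?_⟩
    have : ((16 : ℤ) • x : B) = 16 * x := by
      rw [zsmul_eq_mul]
      norm_num
    change (16 : ℤ) • x = 0
    rw [this, hB16, zero_mul]
  let a : Fin 3 → B := fun i => ⟨π (α i), Algebra.subset_adjoin ⟨i, rfl⟩⟩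
  obtain ⟨n, d, hd, hper⟩ := pigeon hB16 a
  refine ⟨n, d, hd, ?_⟩
  -- map to `Q[X]`
  let ι : B →+* Q := B.val.toRingHom
  have hιa : (fun i => ι (a i)) = fun i => π (α i) := rfl
  have h1 := map_Phi_iter (R := MvPolynomial (Fin 3) B) (S := MvPolynomial (Fin 3) Q)
    (MvPolynomial.map ι) d
    (fun i => C (Phi^[n] a i) + 4 * X i)
  rw [hper] at h1
  have h2 : (fun i => (MvPolynomial.map ι) (C (Phi^[n] a i) + 4 * X i : MvPolynomial (Fin 3) B))
      = fun i => C (Phi^[n] (fun i => π (α i)) i) + 4 * X i := by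
    funext i
    rw [map_add, map_mul, map_C, map_X, map_ofNat]
    congr 2
    exact congrFun (map_Phi_iter ι n a) i
  rw [h2] at h1
  -- lift to `O[X]`
  have h3 := map_Phi_iter (R := MvPolynomial (Fin 3) (O K)) (S := MvPolynomial (Fin 3) Q)
    (MvPolynomial.map π) d
    (fun i => C (Phi^[n] α i) + 4 * X i)
  have h4 : (fun i => (MvPolynomial.map π) (C (Phi^[n] α i) + 4 * X i : MvPolynomial (Fin 3) (O K)))
      = fun i => C (Phi^[n] (fun i => π (α i)) i) + 4 * X i := by
    funext i
    rw [map_add, map_mul, map_C, map_X, map_ofNat]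
    congr 2
    exact congrFun (map_Phi_iter π n α) i
  rw [h4, ← h1, ← h4] at h3
  have h5 : ∀ i, ∃ Hi : MvPolynomial (Fin 3) (O K),
      Phi^[d] (fun i => C (Phi^[n] α i) + 4 * X i : Fin 3 → MvPolynomial (Fin 3) (O K)) i
        = C (Phi^[n] α i) + 4 * (X i + 4 * Hi) := by
    intro i
    have h6 : MvPolynomial.map π (Phi^[d] (fun i => C (Phi^[n] α i) + 4 * X i :
        Fin 3 → MvPolynomial (Fin 3) (O K)) i - (C (Phi^[n] α i) + 4 * X i)) = 0 := by
      rw [map_sub, sub_eq_zero]
      exact congrFun h3 i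
    rw [← MvPolynomial.C_dvd_iff_map_hom_eq_zero π 16 hπ16] at h6
    obtain ⟨Hi, hHi⟩ := h6
    refine ⟨Hi, ?_⟩
    have h7 : (C (16 : O K) : MvPolynomial (Fin 3) (O K)) = 16 := map_ofNat C 16
    rw [h7] at hHi
    linear_combination hHi
  choose H hH using h5
  exact ⟨H, funext hH⟩

end R811.DML
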